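import Pool.Agent.NUT2.Tp1

/-!
# The pairing with one ended line in terms of unlabelled states

`glu L` = the lines of `L` are glued (closed loops have weight 0); `arc m q` = the state with one arc.  With the
seam at `q` the labelled pairing `Wp` is the pairing with the function `glu L (ind (arc m q))`.
-/

set_option autoImplicit false

namespace Pool.Agent.NU5

open _root_.Pool.Agent.EXL _root_.Pool.Agent.NUF _root_.Pool.Agent.NUT2

variable {ι : Type*} [DecidableEq ι] {m q : ι} {L : List (ι × ι)} {n' : ℂ}

/-- **The gluing of the lines of `L`.** -/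
noncomputable def glu (L : List (ι × ι)) : Module.End ℂ (Pat ι → ℂ) :=
  (L.map fun t => uops.glue t.1 t.2).prod

/-- The state with one arc. -/
def arc (m q : ι) : Pat ι := Pat.cup m q Pat.empty

theorem glu_nil : glu ([] : List (ι × ι)) = 1 := rfl

theorem glu_cons (t : ι × ι) : glu (t :: L) = uops.glue t.1 t.2 * glu L := by
  unfold glu
  rw [List.map_cons, List.prod_cons]

theorem rel0_glu {G : LPat (ZMod 2) ι → ℂ} {H : Pat ι → ℂ} (h : Rel0 G H) :
    Rel0 ((L.map fun t => (cops (nu2 n')).glue t.1 t.2).prod G) (glu L H) := by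
  induction L with
  | nil => exact h
  | cons t L ih =>
    rw [glu_cons, List.map_cons, List.prod_cons, Module.End.mul_apply, Module.End.mul_apply]
    exact Rel0.rep (nu2_zero n') id (cw.glue t.1 t.2) ih

theorem rel0_arc (hmq : m ≠ q) :
    Rel0 (Tw (Pi.single q 1) (Gf (nu2 n') m q [])) (n' • (HS.ind (arc m q) : Pat ι → ℂ)) := by
  classical
  intro P
  have iP : ∀ x, P (P x) = x := P.inv
  set p' : LPat (ZMod 2) ι := LPat.gau (Pi.single q 1) (ofP (ZMod 2) P) with hp'
  have ef : ∀ x, p' x = P x := fun x => rfl
  have e0 : (Tw (Pi.single q (1 : ZMod 2)) (Gf (nu2 n') m q [])) (ofP (ZMod 2) P) =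
      Gf (nu2 n') m q [] p' := rfl
  rw [e0]
  unfold Gf
  rw [oo_apply, gm_cons, gm_nil, glueL, if_neg hmq]
  simp only [LinearMap.add_apply, Module.End.mul_apply, Pi.add_apply, lE_apply, lCt_apply, ef,
    Pi.smul_apply, smul_eq_mul]
  have ha : arc m q m = q := by
    unfold arc
    rw [EXL.cup_apply (⟨rfl, rfl⟩ : EXL.Pat.CuOK m q Pat.empty), if_pos rfl]
  by_cases h1 : P m = m
  · rw [if_pos h1]
    have : arc m q ≠ P := by
      rintro rfl
      rw [ha] at h1
      exact hmq h1.symm
    have hi : (HS.ind (arc m q) : Pat ι → ℂ) P = 0 := if_neg (fun e => this e.symm)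
    rw [hi, mul_zero]
  · rw [if_neg h1, if_neg h1, zero_add]
    by_cases h2 : P m = q
    · have h3 : P q = m := by rw [← h2, iP]
      have hoc : LPat.OcOK m q p' := ⟨hmq, h1, fun e => hmq (by rw [← h3]; exact e)⟩
      rw [if_pos hoc, lw_pos _ _ (show p' m = q from h2), jo_pos _ (show p' m = q from h2)]
      have hs : p'.s m = -1 := by
        rw [hp', gau_s, ofP_s, ofP_f, h2, Pi.single_eq_same, Pi.single_eq_of_ne hmq]
        ring
      rw [hs]
      have hn : nu2 n' (-1) = n' := by
        unfold nu2
        rw [if_neg (by decide)]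
      rw [hn]
      congr 1
      unfold dl HS.ind
      by_cases h4 : P = arc m q
      · rw [if_pos h4, if_pos]
        refine LPat.ext (funext fun x => ?_) (funext fun x => ?_)
        · show LPat.rem m q p' x = x
          rw [rem_f (show p' m = q from h2)]
          by_cases e1 : x = m
          · rw [if_pos e1, e1]
          by_cases e2 : x = q
          · rw [if_neg e1, if_pos e2, e2]
          rw [if_neg e1, if_neg e2, ef, h4]
          unfold arc
          rw [EXL.cup_apply (⟨rfl, rfl⟩ : EXL.Pat.CuOK m q Pat.empty), if_neg e1, if_neg e2]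
          rfl
        · show (LPat.rem m q p').s x = 0
          rw [rem_s (show p' m = q from h2)]
          by_cases e1 : x = m
          · rw [if_pos e1]
          by_cases e2 : x = q
          · rw [if_neg e1, if_pos e2]
          rw [if_neg e1, if_neg e2]
          have e3 : P x = x := by
            rw [h4]
            unfold arc
            rw [EXL.cup_apply (⟨rfl, rfl⟩ : EXL.Pat.CuOK m q Pat.empty), if_neg e1, if_neg e2]
            rfl
          exact p'.fix x (by rw [ef, e3])
      · rw [if_neg h4, if_neg]
        intro e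
        apply h4
        ext x
        have hx : LPat.rem m q p' x = x := by rw [e]; rfl
        rw [rem_f (show p' m = q from h2)] at hx
        show P x = arc m q x
        unfold arc
        rw [EXL.cup_apply (⟨rfl, rfl⟩ : EXL.Pat.CuOK m q Pat.empty)]
        by_cases e1 : x = m
        · rw [if_pos e1, e1, h2]
        by_cases e2 : x = q
        · rw [if_neg e1, if_pos e2, e2, h3]
        rw [if_neg e1, if_neg e2]
        rw [if_neg e1, if_neg e2] at hx
        exact hx
    · have h5 : arc m q ≠ P := by
        rintro rfl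
        exact h2 ha
      have hi : (HS.ind (arc m q) : Pat ι → ℂ) P = 0 := if_neg (fun e => h5 e.symm)
      rw [hi, mul_zero]
      by_cases hoc : LPat.OcOK m q p'
      · rw [if_pos hoc, jo_neg _ (show p' m ≠ q from h2)]
        have hc : LPat.CtOK m q p' := ⟨hoc.1, hoc.2.1, hoc.2.2, h2⟩
        have hq : P q ≠ q := hoc.2.2
        unfold dl
        rw [if_neg, mul_zero]
        intro e
        have hx : LPat.cut m q p' (P m) = P m := by rw [e]; rfl
        rw [cut_f hc, if_neg h1, if_neg h2, ef, if_pos rfl, ef] at hx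
        have := congrArg P hx
        rw [iP, iP] at this
        exact hmq this.symm
      · rw [if_neg hoc]

/-- **The pairing in terms of unlabelled states.** -/
theorem rel0_Gf (hL : Gd ((m, q) :: L)) :
    Rel0 (Tw (Pi.single q 1) (Gf (nu2 n') m q L)) (n' • glu L (HS.ind (arc m q) : Pat ι → ℂ)) := by
  have key : ∀ L : List (ι × ι), Gd ((m, q) :: L) → Tw (Pi.single q 1) (Gf (nu2 n') m q L) =
      (L.map fun t => (cops (nu2 n')).glue t.1 t.2).prod
        (Tw (Pi.single q 1) (Gf (nu2 n') m q [])) := by
    intro L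
    induction L with
    | nil => intro _; rfl
    | cons t L ih =>
      intro hL
      have h1 := Gd_cons.1 hL
      have h2 := h1.2.1 t (by simp)
      have h3 : Gd ((m, q) :: L) := Gd_cons.2 ⟨h1.1, fun s hs => h1.2.1 s (by simp [hs]),
        (Gd_cons.1 h1.2.2).2.2⟩
      have c1 : Commute (Tw (Pi.single q (1 : ZMod 2))) ((cops (nu2 n')).glue t.1 t.2) := by
        apply tglue
        rw [Pi.single_eq_of_ne h2.2.2.1.symm, Pi.single_eq_of_ne h2.2.2.2.symm]
      rw [Gf_cons (nu2_neg n') h2.1 h2.2.1 h2.2.2.1 h2.2.2.2, List.map_cons, List.prod_cons,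
        Module.End.mul_apply, ← ih h3, ← Module.End.mul_apply, ← Module.End.mul_apply, c1.eq]
  rw [key L hL, ← map_smul]
  exact rel0_glu (rel0_arc (Gd_cons.1 hL).1)

theorem Wp_unl (hL : Gd ((m, q) :: L)) (V V' : Fnl ι) :
    Wp (nu2 1) (Pi.single q 1) V V' m q L =
      V fun p => V' fun p' => glu L (HS.ind (arc m q)) (un p p') := by
  unfold Wp
  rw [pr_apply]
  have h := rel0_Gf (n' := 1) hL
  congr 1
  funext p
  congr 1
  funext p'
  have := h (un p p')
  rw [one_smul] at this
  exact this

end Pool.Agent.NU5
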