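import Pool.Agent.NU5.Mix
import Pool.Agent.NU5.Arc
import Pool.Agent.NUU.Rot
import Pool.Agent.NUT2.Tp3

/-!
# The two-point function at non generic points (lattice side)

`WL 1 z I J [a] [b] q g a q` = the pairing of the two discs with one line cut at `f` (`a` on the right, occupied; `b` on
the left, empty) and one line cut at `f'` (`q`, `g`).  In the limit of the rapidities to a point where the ring is
regular (equal rows are allowed) it is the product of the two scalars and the pairing `WR` of the two ring
functionals.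
-/

set_option autoImplicit false

namespace Pool.Agent.NU5

open _root_.Pool.Agent.EXL _root_.Pool.Agent.EXL.Pat _root_.Pool.Agent.NUF _root_.Pool.Agent.NUU
  _root_.Pool.Agent.NUT2 Filter Topology
open _root_.Pool.Agent.EXL.Fm (lam)

section gz

variable {α : Type*} [DecidableEq α] {z : α → ℂ} {X : List α}

omit [DecidableEq α] in
theorem Gz_neg (h : Gz z X) : Gz (fun i => -z i) X where
  s i hi k hk hik := by
    have := h.s k hk i hi hik.symm
    rw [show -z i - -z k = z k - z i by ring]
    exact this
  d i hi k hk hik := by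
    have := h.d k hk i hi hik.symm
    rw [show -z i - -z k = z k - z i by ring]
    exact this

omit [DecidableEq α] in
theorem Gz_rev (h : Gz z X) : Gz z X.reverse := h.perm X.reverse_perm.symm

/-- The disc read from the other side. -/
def UDRefl (X : List α) : Prop := ∀ z : α → ℂ, Gz z X → UD (fun i => -z i) X = UD z X.reverse

end gz

variable {ι : Type*} [DecidableEq ι]

/-- the rows of the right half, upwards from the row of `f` -/
def rowsR (I J : List (ι × ι)) (a q : ι) : List ι := a :: (J.map Prod.fst ++ q :: I.map Prod.fst)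

/-- the rows of the left half, upwards from the row of `f` -/
def rowsL (I J : List (ι × ι)) (b g : ι) : List ι := b :: (J.map Prod.snd ++ g :: I.map Prod.snd)

/-- **The two-point function of the ring functionals.** -/
noncomputable def WR (c d : ι) (z : ι → ℂ) (I J : List (ι × ι)) (a b q g : ι) : ℂ :=
  VR c d z (rowsR I J a q) fun p => VR c d z (rowsL I J b g).reverse fun p' =>
    glu (I ++ J) (HS.ind (arc a q)) (un p p')

variable [Finite ι] {I J : List (ι × ι)} {a b q g c d : ι} {β : Type*} {l : Filter β}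
  {zt : β → ι → ℂ} {zz : ι → ℂ} {x Br Bl : ℂ}

/-- **The limit of the two-point function of the lattice.** -/
theorem WL_lim (hO : Ok I J [a] [b] q g a q) (hcd : c ≠ d) (hcr : c ∉ rowsR I J a q)
    (hdr : d ∉ rowsR I J a q) (hcl : c ∉ rowsL I J b g) (hdl : d ∉ rowsL I J b g)
    (hzr : ∀ j ∈ rowsR I J a q, Tendsto (fun t => x - zt t j) l (𝓝 (zz j)))
    (hzl : ∀ j ∈ rowsL I J b g, Tendsto (fun t => x - zt t j) l (𝓝 (zz j)))
    (hGr : ∀ᶠ t in l, Gz (zt t) (rowsR I J a q)) (hGl : ∀ᶠ t in l, Gz (zt t) (rowsL I J b g))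
    (hokr : ∀ j ∈ rowsR I J a q, okR (Real.pi / 8 - zz j))
    (hokl : ∀ j ∈ rowsL I J b g, okR (Real.pi / 8 - zz j))
    (hRr : RegR c d zz (rowsR I J a q)) (hRl : RegR c d zz (rowsL I J b g).reverse)
    (hUr : UDRing c d (rowsR I J a q)) (hUl : UDRing c d (rowsL I J b g).reverse)
    (hrf : UDRefl (rowsL I J b g).reverse)
    (hBr : Tendsto (fun t => BE (fun i => x - zt t i) (rowsR I J a q)) l (𝓝 Br))
    (hBl : Tendsto (fun t => BE (fun i => x - zt t i) (rowsL I J b g).reverse) l (𝓝 Bl)) :
    Tendsto (fun t => WL 1 (zt t) I J [a] [b] q g a q) l (𝓝 (Br * Bl * WR c d zz I J a b q g)) := by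
  have hnr : (rowsR I J a q).Nodup := hO.nd1
  have hnl : (rowsL I J b g).Nodup := hO.nd2
  have hnl' : (rowsL I J b g).reverse.Nodup := List.nodup_reverse.2 hnl
  have hcl' : c ∉ (rowsL I J b g).reverse := fun h => hcl (List.mem_reverse.1 h)
  have hdl' : d ∉ (rowsL I J b g).reverse := fun h => hdl (List.mem_reverse.1 h)
  have e : ∀ t i, x - zt t i = -zt t i + x := fun t i => by ring
  have hGr' : ∀ᶠ t in l, Gz (fun i => x - zt t i) (rowsR I J a q) := hGr.mono fun t ht => by
    simp only [e]
    exact (Gz_neg ht).shift x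
  have hGl' : ∀ᶠ t in l, Gz (fun i => x - zt t i) (rowsL I J b g).reverse := hGl.mono fun t ht => by
    simp only [e]
    exact (Gz_neg (Gz_rev ht)).shift x
  have Lr : LmF l (fun t => UD (fun i => x - zt t i) (rowsR I J a q))
      (Br • VR c d zz (rowsR I J a q)) := fun F =>
    UD_tendsto hcd hnr hcr hdr hUr hzr hGr' hokr hRr hBr F
  have Ll : LmF l (fun t => UD (fun i => x - zt t i) (rowsL I J b g).reverse)
      (Bl • VR c d zz (rowsL I J b g).reverse) := fun F =>
    UD_tendsto hcd hnl' hcl' hdl' hUl (fun j hj => hzl j (List.mem_reverse.1 hj)) hGl'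
      (fun j hj => hokl j (List.mem_reverse.1 hj)) hRl hBl F
  have Lr' : LmF l (fun t => UD (fun i => -(1 : ℂ) * zt t i) (rowsR I J a q))
      (Br • VR c d zz (rowsR I J a q)) := by
    refine Lr.congr fun t => ?_
    have h1 : (fun i => x - zt t i) = fun i => -(1 : ℂ) * zt t i + x := by
      funext i
      ring
    rw [h1, UD_shift]
  have Ll' : LmF l (fun t => UD (fun i => (1 : ℂ) * zt t i) (rowsL I J b g))
      (Bl • VR c d zz (rowsL I J b g).reverse) := by
    refine Ll.congr' (hGl.mono fun t ht => ?_)
    have h1 : (fun i => x - zt t i) = fun i => -zt t i + x := by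
      funext i
      ring
    have h2 : (fun i => (1 : ℂ) * zt t i) = zt t := by
      funext i
      ring
    rw [h1, UD_shift, h2, hrf _ (Gz_rev ht), List.reverse_reverse]
  have key := Wp_lim Lr' Ll' (nu2 1) (Pi.single q 1) a q (I ++ J)
  rw [Wp_smul, Wp_unl hO.gd] at key
  exact key

end Pool.Agent.NU5
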