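import Pool.Agent.NU5.RRg
import Pool.Agent.NUTV.F_all

/-!
# The lattice family has the properties
-/

set_option autoImplicit false

namespace Pool.Agent.NU5

/-- **The lattice family has the properties.** -/
theorem latData : LatData := fun q g => _root_.Pool.Agent.NUTV.fam_data q g

end Pool.Agent.NU5
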