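import Pool.Agent.NU5.Main0
import Pool.Agent.MXR.Main
import Pool.Agent.NUT2.U6

/-!
# The two-point function of the vertical cylinder: final form

`RRk`: the gas of two cut rows tends to `Bk ^ 2 * Wk`.  `gf_le_Wk`: the walks of the plane are bounded by `Wk`.
-/

set_option autoImplicit false

namespace Pool.Agent.NU5

open _root_.Pool.Agent.EXL _root_.Pool.Agent.EXL.Pat _root_.Pool.Agent.NUF _root_.Pool.Agent.NUU
  _root_.Pool.Agent.NUT2 _root_.Pool.Agent.NUBD Filter Topology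
open NUTP (th)

/-! ### The same object as `MXR.W` -/

theorem Jk_eq {k : ℕ} (hk : 1 ≤ k) : Jk k = MXR.prs (MXR.rowJ k) := by
  unfold Jk MXR.prs MXR.rowJ
  apply List.ext_getElem
  · simp only [List.length_map, List.length_take, List.length_drop, List.length_finRange]
    omega
  · intro i h1 h2
    simp only [List.getElem_map, List.getElem_take, List.getElem_drop, List.getElem_finRange]
    show lk _ = lk _
    congr 1
    apply Fin.ext
    show 1 + i = i + 1
    omega

theorem Ik_eq {k : ℕ} (hk : 1 ≤ k) : Ik k = MXR.prs (MXR.rowI k) := by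
  unfold Ik MXR.prs MXR.rowI
  apply List.ext_getElem
  · simp only [List.length_map, List.length_drop, List.length_finRange]
    omega
  · intro i h1 h2
    simp only [List.getElem_map, List.getElem_drop, List.getElem_finRange]
    show lk _ = lk _
    congr 1
    apply Fin.ext
    show k + 1 + i = i + (k + 1)
    omega

theorem Wk_eq_W {k : ℕ} (hk : 1 ≤ k) : Wk k hk = MXR.W hk := by
  unfold Wk MXR.W
  rw [Ik_eq hk, Jk_eq hk, zk_eq]
  rfl

/-- **The walks of the plane are bounded by the two-point function of the cylinder.** -/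
theorem gf_le_Wk {k : ℕ} (h2 : 2 ≤ k) (hodd : k % 2 = 1) (hk : 1 ≤ k) :
    HexObs.gf (HexObs.BAR.CW (-1, 0) k) ≤ ENNReal.ofReal (Wk k hk).re := by
  rw [Wk_eq_W]
  exact MXR.gf_le_of_maj hodd hk (MXR.majW_R h2) (MXR.majW_L h2)

/-- `Wk` is a non-negative real number. -/
theorem Wk_nn {k : ℕ} (h2 : 2 ≤ k) (hk : 1 ≤ k) : ∃ r : ℝ, 0 ≤ r ∧ Wk k hk = r := by
  rw [Wk_eq_W]
  exact MXR.W_nn hk (MXR.majW_R h2) (MXR.majW_L h2)

/-! ### The ring identity -/

theorem udRingAll (β : Type*) [DecidableEq β] [Finite β] : UDRingAll β := by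
  intro c d e X hn hcd hce hde hc hd he
  refine udRing (b := e) ?_ ?_
  · rw [List.nodup_cons, List.nodup_cons]
    refine ⟨?_, hd, hn⟩
    rw [List.mem_cons, not_or]
    exact ⟨hcd, hc⟩
  · rw [List.mem_cons, List.mem_cons, not_or, not_or]
    exact ⟨hce.symm, hde.symm, he⟩

variable {k : ℕ} {β : Type*} {l : Filter β} {X Y : β → Fin (k - 1) → ℂ} {ra rb rq rg : β → ℂ}

/-- **The gas of two cut rows tends to `Bk ^ 2 * Wk`** (the two lists of properties are hypotheses). -/
theorem RRk' (hlat : LatData) (hgas : GasData) (h2 : 2 ≤ k) (hk : 1 ≤ k)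
    (hX : ∀ i, Tendsto (fun t => X t i) l (𝓝 (ph (k + 1 + i.val))))
    (hY : ∀ i, Tendsto (fun t => Y t i) l (𝓝 (ph (1 + i.val))))
    (ha : Tendsto ra l (𝓝 (ph 0))) (hb : Tendsto rb l (𝓝 (ph 0)))
    (hq : Tendsto rq l (𝓝 (ph k))) (hg : Tendsto rg l (𝓝 (ph k)))
    (hgen : ∀ᶠ t in l, NUTP.G th (NUTP.ea (ra t) :: NUTP.ea (rb t) :: NUTP.ea (rq t) ::
      NUTP.ea (rg t) :: ((List.ofFn fun i => NUTP.ea (X t i)) ++ List.ofFn fun i => NUTP.ea (Y t i)))) :
    Tendsto (fun t => gasR (List.ofFn fun i => NUTP.ea (X t i)) (List.ofFn fun i => NUTP.ea (Y t i))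
      (NUTP.ea (ra t)) (NUTP.ea (rb t)) (NUTP.ea (rq t)) (NUTP.ea (rg t))) l
      (𝓝 (Bk k ^ 2 * Wk k hk)) := by
  have nr : ((List.finRange (2 * k)).map (xr (n := 2 * k))).Nodup :=
    (List.nodup_append.1 (all_nodup (2 * k))).1
  have nl : ((List.finRange (2 * k)).map (xl (n := 2 * k))).Nodup :=
    (List.nodup_append.1 (all_nodup (2 * k))).2.1
  have nl' := List.nodup_reverse.2 nl
  have n1 : ∀ j : Fin 4, (Sum.inr j : St (2 * k)) ∉ (List.finRange (2 * k)).map xr := by simp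
  have n2 : ∀ j : Fin 4, (Sum.inr j : St (2 * k)) ∉ ((List.finRange (2 * k)).map xl).reverse := by simp
  refine RRk_of hlat hgas hk (regR_right h2) (regR_left h2) ?_ ?_ (udRefl nl' (udRingAll _)) hX hY ha hb
    hq hg hgen
  · exact udRingAll (St (2 * k)) _ _ (Sum.inr 2) _ nr (by simp) (by simp) (by simp) (n1 0) (n1 1) (n1 2)
  · exact udRingAll (St (2 * k)) _ _ (Sum.inr 2) _ nl' (by simp) (by simp) (by simp) (n2 0) (n2 1) (n2 2)

end Pool.Agent.NU5
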