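import Pool.Agent.NU5.Final

/-!
# The two-point function of the vertical cylinder is the limit of the gas, final form
-/

set_option autoImplicit false

namespace Pool.Agent.NU5

open _root_.Pool.Agent.EXL _root_.Pool.Agent.EXL.Pat _root_.Pool.Agent.NUF _root_.Pool.Agent.NUU
  _root_.Pool.Agent.NUT2 _root_.Pool.Agent.NUBD Filter Topology
open NUTP (th)
open _root_.Pool.Agent.EXL.Fm (lam)

/-- The physical rapidity of the row number `r`. -/
noncomputable def ph (r : ℕ) : ℂ := if r % 2 = 0 then -lam / 2 else lam / 2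

theorem zk_ph (n : ℕ) (r : Fin n) (s : Bool) : zk n (Sum.inl (r, s)) = -lam / 2 - ph r.val := by
  show (if r.val % 2 = 0 then (0 : ℂ) else -lam) = _
  unfold ph
  split_ifs <;> ring

variable {k : ℕ} {β : Type*} {l : Filter β} {X Y : β → Fin (k - 1) → ℂ} {ra rb rq rg : β → ℂ}

theorem zmk_tendsto (hX : ∀ i, Tendsto (fun t => X t i) l (𝓝 (ph (k + 1 + i.val))))
    (hY : ∀ i, Tendsto (fun t => Y t i) l (𝓝 (ph (1 + i.val))))
    (ha : Tendsto ra l (𝓝 (ph 0))) (hb : Tendsto rb l (𝓝 (ph 0)))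
    (hq : Tendsto rq l (𝓝 (ph k))) (hg : Tendsto rg l (𝓝 (ph k))) (r : Fin (2 * k)) (s : Bool) :
    Tendsto (fun t => -lam / 2 - zmk k (X t) (Y t) (ra t) (rb t) (rq t) (rg t) (Sum.inl (r, s))) l
      (𝓝 (zk (2 * k) (Sum.inl (r, s)))) := by
  rw [zk_ph]
  refine tendsto_const_nhds.sub ?_
  by_cases h0 : r.val = 0
  · rw [h0]
    have e : ∀ t, zmk k (X t) (Y t) (ra t) (rb t) (rq t) (rg t) (Sum.inl (r, s)) =
        if s then rb t else ra t := fun t => by
      unfold zmk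
      simp only [dif_pos h0]
    simp only [e]
    cases s
    · exact ha
    · exact hb
  by_cases h1 : r.val < k
  · have e : ∀ t, zmk k (X t) (Y t) (ra t) (rb t) (rq t) (rg t) (Sum.inl (r, s)) =
        Y t ⟨r.val - 1, by omega⟩ := fun t => by
      unfold zmk
      simp only [dif_neg h0, dif_pos h1]
    simp only [e]
    have := hY ⟨r.val - 1, by omega⟩
    rw [show 1 + (⟨r.val - 1, by omega⟩ : Fin (k - 1)).val = r.val by simp; omega] at this
    exact this
  by_cases h2 : r.val = k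
  · rw [h2]
    have e : ∀ t, zmk k (X t) (Y t) (ra t) (rb t) (rq t) (rg t) (Sum.inl (r, s)) =
        if s then rg t else rq t := fun t => by
      unfold zmk
      simp only [dif_neg h0, dif_neg h1, dif_pos h2]
    simp only [e]
    cases s
    · exact hq
    · exact hg
  · have e : ∀ t, zmk k (X t) (Y t) (ra t) (rb t) (rq t) (rg t) (Sum.inl (r, s)) =
        X t ⟨r.val - k - 1, by omega⟩ := fun t => by
      unfold zmk
      simp only [dif_neg h0, dif_neg h1, dif_neg h2]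
    simp only [e]
    have := hX ⟨r.val - k - 1, by omega⟩
    rw [show k + 1 + (⟨r.val - k - 1, by omega⟩ : Fin (k - 1)).val = r.val by simp; omega] at this
    exact this

theorem zmk_ends (hk : 1 ≤ k) (X Y : Fin (k - 1) → ℂ) (ra rb rq rg : ℂ) :
    zmk k X Y ra rb rq rg (xr (r0 k hk)) = ra ∧ zmk k X Y ra rb rq rg (xl (r0 k hk)) = rb ∧
    zmk k X Y ra rb rq rg (xr (rk k hk)) = rq ∧ zmk k X Y ra rb rq rg (xl (rk k hk)) = rg := by
  have h0 : (r0 k hk).val = 0 := rfl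
  have h1 : (rk k hk).val = k := rfl
  refine ⟨?_, ?_, ?_, ?_⟩
  · unfold zmk
    simp only [dif_pos h0]
    rfl
  · unfold zmk
    simp only [dif_pos h0]
    rfl
  · unfold zmk
    simp only [h1, dif_neg (show ¬ k = 0 by omega), dif_neg (lt_irrefl k)]
    rfl
  · unfold zmk
    simp only [h1, dif_neg (show ¬ k = 0 by omega), dif_neg (lt_irrefl k)]
    rfl

/-- **The gas of two cut rows tends to `Bk ^ 2 * Wk`.** -/
theorem RRk_of (hlat : LatData) (hgas : GasData) (hk : 1 ≤ k)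
    (hRr : RegR (Sum.inr 0) (Sum.inr 1) (zk (2 * k)) ((List.finRange (2 * k)).map xr))
    (hRl : RegR (Sum.inr 0) (Sum.inr 1) (zk (2 * k)) ((List.finRange (2 * k)).map xl).reverse)
    (hUr : UDRing (Sum.inr 0) (Sum.inr 1) ((List.finRange (2 * k)).map (xr (n := 2 * k))))
    (hUl : UDRing (Sum.inr 0) (Sum.inr 1) ((List.finRange (2 * k)).map (xl (n := 2 * k))).reverse)
    (hrf : UDRefl ((List.finRange (2 * k)).map (xl (n := 2 * k))).reverse)
    (hX : ∀ i, Tendsto (fun t => X t i) l (𝓝 (ph (k + 1 + i.val))))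
    (hY : ∀ i, Tendsto (fun t => Y t i) l (𝓝 (ph (1 + i.val))))
    (ha : Tendsto ra l (𝓝 (ph 0))) (hb : Tendsto rb l (𝓝 (ph 0)))
    (hq : Tendsto rq l (𝓝 (ph k))) (hg : Tendsto rg l (𝓝 (ph k)))
    (hgen : ∀ᶠ t in l, NUTP.G th (NUTP.ea (ra t) :: NUTP.ea (rb t) :: NUTP.ea (rq t) ::
      NUTP.ea (rg t) :: ((List.ofFn fun i => NUTP.ea (X t i)) ++ List.ofFn fun i => NUTP.ea (Y t i)))) :
    Tendsto (fun t => gasR (List.ofFn fun i => NUTP.ea (X t i)) (List.ofFn fun i => NUTP.ea (Y t i))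
      (NUTP.ea (ra t)) (NUTP.ea (rb t)) (NUTP.ea (rq t)) (NUTP.ea (rg t))) l
      (𝓝 (Bk k ^ 2 * Wk k hk)) := by
  set zt : β → St (2 * k) → ℂ := fun t => zmk k (X t) (Y t) (ra t) (rb t) (rq t) (rg t) with hzt
  have hT := zmk_tendsto hX hY ha hb hq hg
  have hzr : ∀ j ∈ rowsR (Ik k) (Jk k) (xr (r0 k hk)) (xr (rk k hk)),
      Tendsto (fun t => -lam / 2 - zt t j) l (𝓝 (zk (2 * k) j)) := by
    rw [rowsR_k]
    intro j hj
    obtain ⟨r, -, rfl⟩ := List.mem_map.1 hj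
    exact hT r false
  have hzl : ∀ j ∈ rowsL (Ik k) (Jk k) (xl (r0 k hk)) (xl (rk k hk)),
      Tendsto (fun t => -lam / 2 - zt t j) l (𝓝 (zk (2 * k) j)) := by
    rw [rowsL_k]
    intro j hj
    obtain ⟨r, -, rfl⟩ := List.mem_map.1 hj
    exact hT r true
  have hends := fun t => zmk_ends hk (X t) (Y t) (ra t) (rb t) (rq t) (rg t)
  have hgen' : ∀ᶠ t in l, NUTP.G th (NUTP.ea (zt t (xr (r0 k hk))) :: NUTP.ea (zt t (xl (r0 k hk))) ::
      NUTP.ea (zt t (xr (rk k hk))) :: NUTP.ea (zt t (xl (rk k hk))) ::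
        ((Ik k).map (li (zt t)) ++ (Jk k).map (li (zt t)))) := hgen.mono fun t ht => by
    rw [hzt]
    simp only [(hends t).1, (hends t).2.1, (hends t).2.2.1, (hends t).2.2.2, zmk_I, zmk_J]
    exact ht
  have hsame : ∀ t, ∀ s ∈ Ik k ++ Jk k, zt t s.2 = zt t s.1 := fun t => zmk_same
  have hnr : (rowsR (Ik k) (Jk k) (xr (r0 k hk)) (xr (rk k hk))).Nodup := (Ok_k hk).nd1
  have hnl : (rowsL (Ik k) (Jk k) (xl (r0 k hk)) (xl (rk k hk))).Nodup := (Ok_k hk).nd2
  have e : ∀ t i, -lam / 2 - zt t i = -zt t i + -lam / 2 := fun t i => by ring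
  have hGr : ∀ᶠ t in l, Gz (fun i => -lam / 2 - zt t i)
      (rowsR (Ik k) (Jk k) (xr (r0 k hk)) (xr (rk k hk))) := hgen'.mono fun t ht => by
    simp only [e]
    exact (Gz_neg (G_rowsR ht)).shift _
  have hGl : ∀ᶠ t in l, Gz (fun i => -lam / 2 - zt t i)
      (rowsL (Ik k) (Jk k) (xl (r0 k hk)) (xl (rk k hk))).reverse := hgen'.mono fun t ht => by
    simp only [e]
    exact (Gz_neg (Gz_rev (G_rowsL (hsame t) ht))).shift _
  have hBr := BE_tendsto (β := β) hnr hGr hzr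
  have hBl := BE_tendsto (β := β) (List.nodup_reverse.2 hnl) hGl
    fun j hj => hzl j (List.mem_reverse.1 hj)
  have key := RR_tendsto (x := -lam / 2) hlat hgas (Ok_k hk) (c := Sum.inr 0) (d := Sum.inr 1)
    (by simp) (spare_notMem hk 0) (spare_notMem hk 1) hsame hgen' hzr hzl (fun j _ => okR_zk _ j)
    (fun j _ => okR_zk _ j) (by rw [rowsR_k]; exact hRr) (by rw [rowsL_k]; exact hRl)
    (by rw [rowsR_k]; exact hUr) (by rw [rowsL_k]; exact hUl) (by rw [rowsL_k]; exact hrf) hBr hBl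
  have e1 : BD (zk (2 * k)) (rowsR (Ik k) (Jk k) (xr (r0 k hk)) (xr (rk k hk))) = Bk k := by
    rw [rowsR_k]
    rfl
  have e2 : BD (zk (2 * k)) (rowsL (Ik k) (Jk k) (xl (r0 k hk)) (xl (rk k hk))).reverse = Bk k := by
    rw [rowsL_k]
    exact Bk_left k
  have e3 : WR (Sum.inr 0) (Sum.inr 1) (zk (2 * k)) (Ik k) (Jk k) (xr (r0 k hk)) (xl (r0 k hk))
      (xr (rk k hk)) (xl (rk k hk)) = Wk k hk := rfl
  rw [e1, e2, e3] at key
  rw [sq]
  refine key.congr fun t => ?_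
  rw [hzt]
  simp only [(hends t).1, (hends t).2.1, (hends t).2.2.1, (hends t).2.2.2, zmk_I, zmk_J]

end Pool.Agent.NU5
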