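import Pool.Agent.NU5.Leg2
import Pool.Agent.NUP1L.LegGas

/-!
# Canonical generic rows near the physical rows
-/

set_option autoImplicit false

namespace Pool.Agent.NU5

open Filter Topology
open NUTP (th)
open Complex (I)
open _root_.Pool.Agent.EXL.Fm (lam)

theorem ph_re (r : ℕ) : |(-ph r).re| ≤ NUP1.l / 2 := by
  have e : (-ph r).re = if r % 2 = 0 then Real.pi / 16 else -(Real.pi / 16) := by
    unfold ph lam
    split_ifs <;> simp [Complex.div_re, Complex.normSq] <;> ring
  have hp := Real.pi_pos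
  rw [e]
  unfold NUP1.l
  split_ifs
  · rw [abs_of_pos (by positivity)]
    linarith
  · rw [abs_neg, abs_of_pos (by positivity)]
    linarith

theorem ph_im (r : ℕ) : (-ph r).im = 0 := by
  unfold ph lam
  split_ifs <;> simp [Complex.div_im, Complex.normSq]

/-- the row `r` at the height `t * n` -/
noncomputable def rw' (r n : ℕ) (t : ℝ) : ℂ := -ph r + ((t * n : ℝ) : ℂ) * I

theorem rw'_im (r n : ℕ) (t : ℝ) : (rw' r n t).im = t * n := by
  unfold rw'
  rw [Complex.add_im, ph_im, Complex.mul_im, Complex.ofReal_re, Complex.ofReal_im, Complex.I_im, Complex.I_re]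
  ring

theorem rw'_re (r n : ℕ) (t : ℝ) : |(rw' r n t).re| ≤ NUP1.l / 2 := by
  have e : (rw' r n t).re = (-ph r).re := by
    unfold rw'
    simp
  rw [e]
  exact ph_re r

theorem rw'_tendsto (r n : ℕ) : Tendsto (rw' r n) (𝓝[>] 0) (𝓝 (-ph r)) := by
  have h : Continuous (rw' r n) := by
    unfold rw'
    fun_prop
  have h2 := (h.tendsto 0).mono_left (nhdsWithin_le_nhds (s := Set.Ioi (0 : ℝ)))
  have e : rw' r n 0 = -ph r := by
    unfold rw'
    simp
  rwa [e] at h2

variable (k : ℕ)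

/-- rows `k + 1, ..., 2 k - 1` -/
noncomputable def cx (t : ℝ) (i : Fin (k - 1)) : ℂ := rw' (k + 1 + i.val) (4 + i.val) t

/-- rows `1, ..., k - 1` -/
noncomputable def cy (t : ℝ) (i : Fin (k - 1)) : ℂ := rw' (1 + i.val) (k + 3 + i.val) t

/-- the ends at the row `0` -/
noncomputable def cp (t : ℝ) : ℂ := rw' 0 0 t

/-- the ends at the row `0` -/
noncomputable def ch (t : ℝ) : ℂ := rw' 0 1 t

/-- the ends at the row `k` -/
noncomputable def cq (t : ℝ) : ℂ := rw' k 2 t

/-- the ends at the row `k` -/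
noncomputable def cg (t : ℝ) : ℂ := rw' k 3 t

variable {k}

theorem ims_canon {t : ℝ} (ht : 0 < t) : (ims (cx k t) (cy k t) (cp t) (ch t) (cq k t) (cg k t)).Nodup := by
  have e : ims (cx k t) (cy k t) (cp t) (ch t) (cq k t) (cg k t) =
      (0 :: 1 :: 2 :: 3 :: ((List.ofFn fun i : Fin (k - 1) => 4 + i.val) ++
        List.ofFn fun i : Fin (k - 1) => k + 3 + i.val)).map fun n : ℕ => t * n := by
    unfold ims cx cy cp ch cq cg
    simp only [rw'_im, List.map_cons, List.map_append, List.map_ofFn]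
    rfl
  rw [e]
  refine List.Nodup.map ?_ ?_
  · intro a b hab
    have : (a : ℝ) = b := mul_left_cancel₀ ht.ne' hab
    exact_mod_cast this
  · have h1 : (List.ofFn fun i : Fin (k - 1) => 4 + i.val).Nodup := by
      rw [List.nodup_ofFn]
      intro i j hij
      have : 4 + i.val = 4 + j.val := hij
      exact Fin.ext (by omega)
    have h2 : (List.ofFn fun i : Fin (k - 1) => k + 3 + i.val).Nodup := by
      rw [List.nodup_ofFn]
      intro i j hij
      have : k + 3 + i.val = k + 3 + j.val := hij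
      exact Fin.ext (by omega)
    have h3 : ((List.ofFn fun i : Fin (k - 1) => 4 + i.val) ++
        List.ofFn fun i : Fin (k - 1) => k + 3 + i.val).Nodup := by
      rw [List.nodup_append]
      refine ⟨h1, h2, ?_⟩
      intro a ha b hb
      rw [List.mem_ofFn] at ha hb
      obtain ⟨i, rfl⟩ := ha
      obtain ⟨j, rfl⟩ := hb
      omega
    have h4 : ∀ n ∈ (List.ofFn fun i : Fin (k - 1) => 4 + i.val) ++
        List.ofFn fun i : Fin (k - 1) => k + 3 + i.val, 4 ≤ n := by
      intro n hn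
      rw [List.mem_append, List.mem_ofFn, List.mem_ofFn] at hn
      rcases hn with ⟨i, rfl⟩ | ⟨i, rfl⟩ <;> have := i.isLt <;> omega
    simp only [List.nodup_cons, List.mem_cons, not_or]
    refine ⟨⟨by norm_num, by norm_num, by norm_num, fun h => by have := h4 _ h; omega⟩,
      ⟨by norm_num, by norm_num, fun h => by have := h4 _ h; omega⟩,
      ⟨by norm_num, fun h => by have := h4 _ h; omega⟩, fun h => by have := h4 _ h; omega, h3⟩

theorem rp_canon (t : ℝ) : NUP1.Leg.Rp (ch t) (cg k t) (cx k t) (cy k t) :=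
  ⟨rw'_re _ _ _, rw'_re _ _ _, fun _ => rw'_re _ _ _, fun _ => rw'_re _ _ _⟩

theorem ht_canon {t : ℝ} (ht : 0 < t) : NUP1.Leg.Ht (cp t) (ch t) (cq k t) (cg k t) (cx k t) (cy k t) := by
  have key : ∀ a b r s : ℕ, a ≠ b → (rw' r a t).im ≠ (rw' s b t).im := by
    intro a b r s hab h
    rw [rw'_im, rw'_im] at h
    have : (a : ℝ) = b := mul_left_cancel₀ ht.ne' h
    exact hab (by exact_mod_cast this)
  constructor
  · intro i j hij
    exact key _ _ _ _ fun h => hij (Fin.ext (by omega))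
  · intro i j hij
    exact key _ _ _ _ fun h => hij (Fin.ext (by omega))
  · intro i j
    exact key _ _ _ _ (by omega)
  · intro i
    exact key _ _ _ _ (by omega)
  · intro j
    exact key _ _ _ _ (by omega)
  · intro i
    exact key _ _ _ _ (by omega)
  · intro j
    exact key _ _ _ _ (by omega)
  · exact key _ _ _ _ (by omega)
  · intro i
    exact key _ _ _ _ (by omega)
  · intro j
    exact key _ _ _ _ (by omega)

/-- The right side of `NUP1.Leg.RE_leg` at the canonical rows. -/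
noncomputable def legC (k : ℕ) (α β t : ℝ) : ℂ :=
  Complex.sin NUP1.l * (NUP1.Leg.Bp (ch t) (cq k t) (cx k t) * NUP1.Leg.Bp (cg k t) (cp t) (cy k t)) *
    ∑ n' ∈ Finset.range (2 * (k - 1) + 1),
      NUP1.Leg.LegI α β (ch t) (cg k t) (NUP1.Leg.hE (NUP1.Leg.cc (k - 1)) (ch t) (cp t) (cg k t) (cq k t) (cx k t) (cy k t))
        (NUP1.Leg.hE (NUP1.Leg.cc (k - 1)) (cg k t) (cq k t) (ch t) (cp t) (cy k t) (cx k t)) (cx k t) (cy k t) n' n'

/-- **`GasLe` from the contour integrals at the canonical rows.** -/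
theorem gasLe_legC {α β : ℝ} (hα1 : 1 / 2 * NUP1.l < α) (hα2 : α < 3 / 2 * NUP1.l)
    (hβ1 : -(9 / 2 * NUP1.l) < β) (hβ2 : β < -(3 / 2 * NUP1.l)) (h3 : 3 * NUP1.l < α - β)
    (h5 : α - β < 5 * NUP1.l) {c : ℝ} {r : ℝ → ℝ} (hb : ∀ᶠ t in 𝓝[>] (0 : ℝ), ‖legC k α β t‖ ≤ r t)
    (hr : Tendsto r (𝓝[>] 0) (𝓝 c)) : GasLe k c := by
  refine gasLe_of_le (l := 𝓝[>] (0 : ℝ)) (x := cx k) (y := cy k) (p := cp) (h := ch) (q := cq k) (g := cg k)
    (fun i => rw'_tendsto _ _) (fun i => rw'_tendsto _ _) (rw'_tendsto _ _) (rw'_tendsto _ _) (rw'_tendsto _ _)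
    (rw'_tendsto _ _) ?_ ?_ hr
  · filter_upwards [self_mem_nhdsWithin] with t ht
    exact ims_canon ht
  · filter_upwards [self_mem_nhdsWithin, hb] with t ht hbt
    rw [NUP1.Leg.RE_leg (ht_canon ht) (rp_canon t) le_rfl hα1 hα2 hβ1 hβ2 h3 h5]
    simpa only [Nat.sub_self, Nat.add_zero, legC] using hbt

end Pool.Agent.NU5
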