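import Pool.Agent.NU5.Rows
import Pool.Agent.NUBD.UD

/-!
# The two-point function of the vertical cylinder is the limit of the gas

`RRk_tendsto`: the gas of two cut rows (`2 k - 2` full lines, alternating) tends to `BD ^ 2 * Wk`.
-/

set_option autoImplicit false

namespace Pool.Agent.NU5

open _root_.Pool.Agent.EXL _root_.Pool.Agent.EXL.Pat _root_.Pool.Agent.NUF _root_.Pool.Agent.NUU
  _root_.Pool.Agent.NUT2 _root_.Pool.Agent.NUBD Filter Topology
open NUTP (th)
open _root_.Pool.Agent.EXL.Fm (lam)

section scal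

variable {ι : Type*} [DecidableEq ι] {X : List ι} {β : Type*} {l : Filter β} {ζ : β → ι → ℂ} {z0 : ι → ℂ}

theorem BE_eq_BD {z : ι → ℂ} (hn : X.Nodup) (hG : Gz z X) : BE z X = BD z X :=
  UD_ind X.length X rfl hn fun i hi j hj hij => hG.s i hi j hj hij

theorem BD_tendsto (h : ∀ j ∈ X, Tendsto (fun b => ζ b j) l (𝓝 (z0 j))) :
    Tendsto (fun b => BD (ζ b) X) l (𝓝 (BD z0 X)) := by
  set z1 : β → ι → ℂ := fun b i => if i ∈ X then ζ b i else z0 i with hz1
  have e1 : ∀ b, ∀ i ∈ X, ζ b i = z1 b i := fun b i hi => by rw [hz1]; exact (if_pos hi).symm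
  have ht : Tendsto z1 l (𝓝 z0) := by
    rw [tendsto_pi_nhds]
    intro i
    by_cases hi : i ∈ X
    · exact (h i hi).congr fun b => e1 b i hi
    · have : (fun b => z1 b i) = fun _ => z0 i := by
        funext b
        exact if_neg hi
      rw [this]
      exact tendsto_const_nhds
  have hc : Continuous fun y : ι → ℂ => BD y X := cont_BD fun k _ => continuous_apply k
  refine ((hc.tendsto z0).comp ht).congr fun b => ?_
  exact BD_congr fun j hj => (e1 b j hj).symm

theorem BE_tendsto (hn : X.Nodup) (hG : ∀ᶠ b in l, Gz (ζ b) X)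
    (h : ∀ j ∈ X, Tendsto (fun b => ζ b j) l (𝓝 (z0 j))) :
    Tendsto (fun b => BE (ζ b) X) l (𝓝 (BD z0 X)) :=
  (BD_tendsto h).congr' (hG.mono fun _ hb => (BE_eq_BD hn hb).symm)

end scal

/-- **The scalar of all rows.** -/
noncomputable def Bk (k : ℕ) : ℂ := BD (zk (2 * k)) ((List.finRange (2 * k)).map xr)

theorem Bk_left (k : ℕ) : BD (zk (2 * k)) ((List.finRange (2 * k)).map xl).reverse = Bk k := by
  unfold Bk
  rw [BD_perm (List.reverse_perm _), BD_map, BD_map]
  rfl

/-- The physical rapidities of the sites from those of the lines. -/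
noncomputable def zmk (k : ℕ) (X Y : Fin (k - 1) → ℂ) (ra rb rq rg : ℂ) : St (2 * k) → ℂ
  | Sum.inl (r, s) => if _h0 : r.val = 0 then (if s then rb else ra) else
      if _h1 : r.val < k then Y ⟨r.val - 1, by omega⟩ else
        if _h2 : r.val = k then (if s then rg else rq) else X ⟨r.val - k - 1, by omega⟩
  | Sum.inr _ => 0

variable {k : ℕ} (hk : 1 ≤ k) {X Y : Fin (k - 1) → ℂ} {ra rb rq rg : ℂ}

theorem zmk_J : (Jk k).map (li (zmk k X Y ra rb rq rg)) = List.ofFn fun i => NUTP.ea (Y i) := by
  apply List.ext_getElem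
  · simp only [Jk, List.length_map, List.length_take, List.length_drop, List.length_finRange,
      List.length_ofFn]
    omega
  · intro i h1 h2
    rw [List.length_ofFn] at h2
    simp only [Jk, List.getElem_map, List.getElem_take, List.getElem_drop, List.getElem_finRange,
      List.getElem_ofFn]
    unfold li
    congr 1
    show zmk k X Y ra rb rq rg (Sum.inl (_, false)) = Y ⟨i, h2⟩
    have e1 : (Fin.cast (List.length_finRange (n := 2 * k)) ⟨1 + i, by
      rw [List.length_finRange]; omega⟩ : Fin (2 * k)).val = 1 + i := rfl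
    unfold zmk
    simp only [e1]
    rw [dif_neg (by omega), dif_pos (by omega)]
    congr 1
    exact Fin.ext (by simp)

theorem zmk_I : (Ik k).map (li (zmk k X Y ra rb rq rg)) = List.ofFn fun i => NUTP.ea (X i) := by
  apply List.ext_getElem
  · simp only [Ik, List.length_map, List.length_drop, List.length_finRange, List.length_ofFn]
    omega
  · intro i h1 h2
    rw [List.length_ofFn] at h2
    simp only [Ik, List.getElem_map, List.getElem_drop, List.getElem_finRange, List.getElem_ofFn]
    unfold li
    congr 1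
    show zmk k X Y ra rb rq rg (Sum.inl (_, false)) = X ⟨i, h2⟩
    have e1 : (Fin.cast (List.length_finRange (n := 2 * k)) ⟨k + 1 + i, by
      rw [List.length_finRange]; omega⟩ : Fin (2 * k)).val = k + 1 + i := rfl
    unfold zmk
    simp only [e1]
    rw [dif_neg (by omega), dif_neg (by omega), dif_neg (by omega)]
    congr 1
    exact Fin.ext (by simp; omega)

theorem zmk_same : ∀ s ∈ Ik k ++ Jk k,
    zmk k X Y ra rb rq rg s.2 = zmk k X Y ra rb rq rg s.1 := by
  have key : ∀ r : Fin (2 * k), r.val ≠ 0 → r.val ≠ k →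
      zmk k X Y ra rb rq rg (lk r).2 = zmk k X Y ra rb rq rg (lk r).1 := by
    intro r h0 h1
    show zmk k X Y ra rb rq rg (Sum.inl (r, true)) = zmk k X Y ra rb rq rg (Sum.inl (r, false))
    unfold zmk
    simp only [dif_neg h0, dif_neg h1]
  intro s hs
  rcases List.mem_append.1 hs with hs | hs
  · obtain ⟨r, hr, rfl⟩ := List.mem_map.1 hs
    obtain ⟨i, hi, rfl⟩ := List.mem_iff_getElem.1 hr
    rw [List.length_drop, List.length_finRange] at hi
    refine key _ ?_ ?_
    · rw [List.getElem_drop, List.getElem_finRange]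
      show k + 1 + i ≠ 0
      omega
    · rw [List.getElem_drop, List.getElem_finRange]
      show k + 1 + i ≠ k
      omega
  · obtain ⟨r, hr, rfl⟩ := List.mem_map.1 hs
    obtain ⟨i, hi, rfl⟩ := List.mem_iff_getElem.1 hr
    rw [List.length_take, List.length_drop, List.length_finRange] at hi
    refine key _ ?_ ?_
    · rw [List.getElem_take, List.getElem_drop, List.getElem_finRange]
      show 1 + i ≠ 0
      omega
    · rw [List.getElem_take, List.getElem_drop, List.getElem_finRange]
      show 1 + i ≠ k
      omega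

theorem okR_zk (n : ℕ) (j : St n) : okR (Real.pi / 8 - zk n j) := by
  rcases j with ⟨i, s⟩ | j
  · by_cases h : i.val % 2 = 0
    · have : zk n (Sum.inl (i, s)) = 0 := if_pos h
      rw [this, sub_zero]
      exact okR_hex
    · have : zk n (Sum.inl (i, s)) = -lam := if_neg h
      rw [this]
      exact okR_t (t := 2) (by norm_num) (by norm_num) (by unfold lam; push_cast; ring)
  · have : zk n (Sum.inr j) = 0 := rfl
    rw [this, sub_zero]
    exact okR_hex

end Pool.Agent.NU5
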