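import Pool.Agent.NU5.Glue
import Pool.Agent.BAR.Gamma

/-!
# The two Props of `BAR/Gamma` from the bound of the gas of two cut rows
-/

set_option autoImplicit false

namespace Pool.Agent.NU5

open HexObs.BAR

/-- the two-point function of the vertical cylinder with `2 k` rows -/
noncomputable def Wn (k : ℕ) : ℝ := if hk : 1 ≤ k then ‖Wk k hk‖ else 0

theorem Wn_eq {k : ℕ} (hk : 1 ≤ k) : Wn k = ‖Wk k hk‖ := dif_pos hk

/-- **The column walks of the plane are bounded by the two-point function of the cylinder.** -/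
theorem twoPt_Wn : TwoPt Wn := by
  refine ⟨2, fun k hk ho => ?_⟩
  rw [Wn_eq (by omega)]
  exact (gf_le_Wk hk (Nat.odd_iff.1 ho) (by omega)).trans (ENNReal.ofReal_le_ofReal (Complex.re_le_norm _))

/-- **The decay of the two-point function of the cylinder.** -/
theorem wUp_Wn (hlat : LatData) (hgas : GasData) (hleg : LegUp) : WUp Wn := by
  intro ε hε
  obtain ⟨A, k0, hA⟩ := Wk_le hlat hgas hleg hε
  refine ⟨A, k0 + 1, fun k hk ho => ?_⟩
  rw [Wn_eq (by omega)]
  exact hA k (by omega) (Nat.odd_iff.1 ho) (by omega)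

end Pool.Agent.NU5
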