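import Pool.Agent.NUP1L.Rows
import Pool.Agent.NU5.GU

/-!
# `GasLe` and the two Props of `BAR/Gamma` from the bound of the eleven integrals
-/

set_option autoImplicit false

noncomputable section

open Complex Filter Topology

namespace Pool.Agent.NU5

open NUP1 (l lpos)
open NUP1.Rws (EE gasR_tendsto xE yE pE hE' qE gE pt0_tendsto' G_E sg card_sg)
open NUP1.Leg (Bp)
open NURow (x0)
open NUMFH (rw2)
open NUQ2 (norm_Bp_mul)

/-- the rows of one group as the rows of 14's prefactor -/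
def sx0 (M : ℕ) (i : Fin (2 * M)) : Bool := decide ((i : ℕ) < M)

theorem x0_rw2 (M : ℕ) : x0 M = rw2 (sx0 M) := by
  funext i
  unfold NURow.x0 NUMFH.rw2 sx0
  by_cases h : (i : ℕ) < M <;> simp [h]

theorem card_sx0 (M : ℕ) : (Finset.univ.filter fun i => sx0 M i = true).card = M ∧
    (Finset.univ.filter fun i => sx0 M i = false).card = M := by
  have h1 : (Finset.univ.filter fun i => sx0 M i = true).card = M := by
    have e : (Finset.univ.filter fun i : Fin (2 * M) => sx0 M i = true) =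
        (Finset.univ : Finset (Fin M)).map (Fin.castLEEmb (by omega : M ≤ 2 * M)) := by
      ext i
      simp only [sx0, decide_eq_true_eq, Finset.mem_filter, Finset.mem_univ, true_and,
        Finset.mem_map, Fin.castLEEmb_apply]
      constructor
      · intro h
        exact ⟨⟨i, h⟩, Fin.ext rfl⟩
      · rintro ⟨j, rfl⟩
        simp
    rw [e, Finset.card_map, Finset.card_univ, Fintype.card_fin]
  refine ⟨h1, ?_⟩
  have h2 := Finset.card_filter_add_card_filter_not (s := (Finset.univ : Finset (Fin (2 * M))))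
    (fun i => sx0 M i = true)
  simp only [Bool.not_eq_true, Finset.card_univ, Fintype.card_fin] at h2
  omega

/-- the modulus of the prefactor does not depend on the order of the rows -/
theorem norm_pre_x0 (M : ℕ) :
    ‖sin (l : ℂ) * (Bp ((l : ℂ) / 2) (-((l : ℂ) / 2)) (rw2 (sg (2 * M + 1 + 1)) : Fin (2 * M) → ℂ) *
      Bp (-((l : ℂ) / 2)) ((l : ℂ) / 2) (rw2 (sg 1) : Fin (2 * M) → ℂ))‖ =
    ‖sin (l : ℂ) * (Bp (-((l : ℂ) / 2)) ((l : ℂ) / 2) (x0 M) *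
      Bp ((l : ℂ) / 2) (-((l : ℂ) / 2)) (x0 M))‖ := by
  have h1 := norm_Bp_mul (M := M) (m := 2 * M) (m' := 2 * M) (sg (2 * M + 1 + 1)) (sg 1)
    (card_sg _ M).1 (card_sg _ M).2 (card_sg _ M).1 (card_sg _ M).2 (r := l / 2) (o := -(l / 2))
    (r' := -(l / 2)) (o' := l / 2) (Or.inl ⟨rfl, rfl⟩) (Or.inr ⟨rfl, rfl⟩)
  have h2 := norm_Bp_mul (M := M) (m := 2 * M) (m' := 2 * M) (sx0 M) (sx0 M)
    (card_sx0 M).1 (card_sx0 M).2 (card_sx0 M).1 (card_sx0 M).2 (r := -(l / 2)) (o := l / 2)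
    (r' := l / 2) (o' := -(l / 2)) (Or.inr ⟨rfl, rfl⟩) (Or.inl ⟨rfl, rfl⟩)
  have h3 : (0 : ℝ) < 2 ^ (2 * (2 * M + 1) * (2 * (2 * M + 1) - 1)) := by positivity
  have h4 := mul_left_cancel₀ h3.ne' (h1.trans h2.symm)
  push_cast at h4
  rw [norm_mul, norm_mul (sin (l : ℂ)), x0_rw2, h4]

/-- **The gas of the two cut rows from the bound of the eleven integrals.** -/
theorem gasTop_ab {a b : ℝ} (ha : a = 31 / 50 ∨ a = 5 / 4) (hb : 1 < b) (hb' : b ≤ 4 / 3) {M : ℕ}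
    {S : ℝ} (hS : ‖∑ n ∈ Finset.range (4 * M + 1), EE a b M n‖ ≤ S) :
    GasLe (2 * M + 1) (‖sin (l : ℂ) * (Bp (-((l : ℂ) / 2)) ((l : ℂ) / 2) (x0 M) *
      Bp ((l : ℂ) / 2) (-((l : ℂ) / 2)) (x0 M))‖ * S) := by
  intro δ hδ
  have h1 := (gasR_tendsto ha hb hb' M).norm
  rw [norm_mul, norm_pre_x0, show 2 * (2 * M) + 1 = 4 * M + 1 by ring] at h1
  have h2 : ‖sin (l : ℂ) * (Bp (-((l : ℂ) / 2)) ((l : ℂ) / 2) (x0 M) *
      Bp ((l : ℂ) / 2) (-((l : ℂ) / 2)) (x0 M))‖ * ‖∑ n ∈ Finset.range (4 * M + 1), EE a b M n‖ <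
      ‖sin (l : ℂ) * (Bp (-((l : ℂ) / 2)) ((l : ℂ) / 2) (x0 M) *
      Bp ((l : ℂ) / 2) (-((l : ℂ) / 2)) (x0 M))‖ * S + δ :=
    lt_of_le_of_lt (mul_le_mul_of_nonneg_left hS (norm_nonneg _)) (by linarith)
  have h3 := h1.eventually (gt_mem_nhds h2)
  have hpos : ∀ᶠ e : ℝ in 𝓝[>] 0, 0 < e := self_mem_nhdsWithin
  have near : ∀ {a : ℝ → ℂ} {b : ℂ}, Tendsto a (𝓝[>] 0) (𝓝 b) →
      ∀ᶠ t in 𝓝[>] (0 : ℝ), ‖a t - b‖ < δ := by
    intro a b hab
    filter_upwards [hab.eventually (Metric.ball_mem_nhds b hδ)] with z hz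
    rwa [dist_eq_norm] at hz
  have n1 : ∀ᶠ t in 𝓝[>] (0 : ℝ), ∀ i : Fin (2 * M), ‖-xE M t i - ph (2 * M + 1 + 1 + i.val)‖ < δ :=
    eventually_all.2 fun i => near (pt0_tendsto' _ _)
  have n2 : ∀ᶠ t in 𝓝[>] (0 : ℝ), ∀ i : Fin (2 * M), ‖-yE M t i - ph (1 + i.val)‖ < δ :=
    eventually_all.2 fun i => near (pt0_tendsto' _ _)
  obtain ⟨t, g1, g2, g3, g4, g5, g6, g7, g8⟩ := (n1.and (n2.and ((near (pt0_tendsto' 0 (4 * M + 1))).and
    ((near (pt0_tendsto' 0 (4 * M + 2))).and ((near (pt0_tendsto' (2 * M + 1) (4 * M + 3))).and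
    ((near (pt0_tendsto' (2 * M + 1) (4 * M + 4))).and (hpos.and h3))))))).exists
  exact ⟨fun i => -xE M t i, fun i => -yE M t i, -pE M t, -hE' M t, -qE M t, -gE M t, g1, g2, g3,
    g4, g5, g6, G_E g7, g8.le⟩

/-- the first stub of the master file: `a = 31 / 50` -/
theorem gasTop {M : ℕ} (_hM : 1 ≤ M) {b : ℝ} (hb : 1 < b) (hb' : b ≤ 4 / 3)
    {S : ℝ} (hS : ‖∑ n ∈ Finset.range (4 * M + 1), EE (31 / 50) b M n‖ ≤ S) :
    GasLe (2 * M + 1) (‖sin (l : ℂ) * (Bp (-((l : ℂ) / 2)) ((l : ℂ) / 2) (x0 M) *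
      Bp ((l : ℂ) / 2) (-((l : ℂ) / 2)) (x0 M))‖ * S) :=
  gasTop_ab (Or.inl rfl) hb hb' hS

/-! ### the other road: `GasUp` -/

/-- **The decay of the two-point function of the cylinder from the gas estimate.** -/
theorem wUp_of_gasUp (H : NUQ2.GasUp) : HexObs.BAR.WUp Wn := by
  intro ε hε
  obtain ⟨A, k0, hA⟩ := NUQ2.Wk_le H hε
  refine ⟨A, k0 + 1, fun k hk ho => ?_⟩
  rw [Wn_eq (by omega)]
  exact hA k (by omega) (by omega) ho

/-- **The growth of the half plane walks from the gas estimate.** -/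
theorem hUp_of_gasUp (H : NUQ2.GasUp) : HexObs.BAR.HUp (61 / 48) := by
  have hC : ∀ ε : ℝ, 0 < ε → ∃ (A : ℝ) (k0 : ℕ), ∀ k : ℕ, k0 ≤ k →
      HexObs.gf (HexObs.BAR.CW (-1, 0) k) ≤ ENNReal.ofReal (A * (k : ℝ) ^ (-(5 / 24) + ε)) := by
    intro ε hε
    obtain ⟨A, k0, hA⟩ := NUQ2.Wk_le H hε
    refine ⟨A, k0 + 2, fun k hk => ?_⟩
    rcases Nat.mod_two_eq_zero_or_one k with h0 | h1
    · rw [CW_even h0]
      unfold HexObs.gf
      simp
    · refine (gf_le_Wk (by omega) h1 (by omega)).trans (ENNReal.ofReal_le_ofReal ?_)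
      exact (Complex.re_le_norm _).trans (hA k (by omega) (by omega) (Nat.odd_iff.2 h1))
  have h := HexObs.BAR.HH_le_of_CW (δ := (-1, 0)) (by decide) (b := 5 / 24) (by norm_num)
    fun ε hε => hC ε hε
  intro ε hε
  obtain ⟨A, hA⟩ := h ε hε
  refine ⟨A, fun n hn => ?_⟩
  have := hA n hn
  rwa [show ((11 / 4 - 5 / 24) / 2 + ε : ℝ) = 61 / 48 + ε by ring] at this

end Pool.Agent.NU5

end
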