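import Pool.Agent.NU5.RR
import Pool.Agent.NUF.PDef

/-!
# The rows of the vertical cylinder

`2 k` rows; the row `0` is cut at `f`, the row `k` is cut at `f'`; rapidity `0` on the even rows, `- π / 8` on the odd
rows.  `Wk k` = the two-point function of the ring functionals.
-/

set_option autoImplicit false

namespace Pool.Agent.NU5

open _root_.Pool.Agent.EXL _root_.Pool.Agent.EXL.Pat _root_.Pool.Agent.NUF _root_.Pool.Agent.NUU
  _root_.Pool.Agent.NUT2 Filter Topology
open NUTP (th)
open _root_.Pool.Agent.EXL.Fm (lam)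

section list

variable {α β : Type*}

theorem split_rows (l : List α) {k : ℕ} (hk : 1 ≤ k) (h0 : 0 < l.length) (h1 : k < l.length) :
    l = l[0] :: ((l.drop 1).take (k - 1) ++ l[k] :: l.drop (k + 1)) := by
  have e1 : l.drop 0 = l[0] :: l.drop 1 := List.drop_eq_getElem_cons h0
  have e2 : l.drop k = l[k] :: l.drop (k + 1) := List.drop_eq_getElem_cons h1
  have e3 : (l.drop 1).drop (k - 1) = l.drop k := by
    rw [List.drop_drop]
    congr 1
    omega
  rw [← e2, ← e3, List.take_append_drop, ← e1, List.drop_zero]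

end list

/-- the lines between the two cut rows -/
def Jk (k : ℕ) : List (St (2 * k) × St (2 * k)) := (((List.finRange (2 * k)).drop 1).take (k - 1)).map lk

/-- the other lines -/
def Ik (k : ℕ) : List (St (2 * k) × St (2 * k)) := ((List.finRange (2 * k)).drop (k + 1)).map lk

/-- the right half of a row -/
abbrev xr {n : ℕ} (i : Fin n) : St n := Sum.inl (i, false)

/-- the left half of a row -/
abbrev xl {n : ℕ} (i : Fin n) : St n := Sum.inl (i, true)

/-- the rapidities: `0` on the even rows, `- π / 8` on the odd rows. -/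
noncomputable def zk (n : ℕ) : St n → ℂ :=
  Sum.elim (fun x => if x.1.val % 2 = 0 then 0 else -lam) fun _ => 0

/-- the row of `f` -/
def r0 (k : ℕ) (hk : 1 ≤ k) : Fin (2 * k) := ⟨0, by omega⟩

/-- the row of `f'` -/
def rk (k : ℕ) (hk : 1 ≤ k) : Fin (2 * k) := ⟨k, by omega⟩

/-- **The two-point function of the vertical cylinder with `2 k` rows.** -/
noncomputable def Wk (k : ℕ) (hk : 1 ≤ k) : ℂ :=
  WR (Sum.inr 0) (Sum.inr 1) (zk (2 * k)) (Ik k) (Jk k) (xr (r0 k hk)) (xl (r0 k hk)) (xr (rk k hk))
    (xl (rk k hk))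

variable {k : ℕ} (hk : 1 ≤ k)

theorem finRange_split : List.finRange (2 * k) = r0 k hk :: (((List.finRange (2 * k)).drop 1).take (k - 1) ++
    rk k hk :: (List.finRange (2 * k)).drop (k + 1)) := by
  have h0 : 0 < (List.finRange (2 * k)).length := by
    rw [List.length_finRange]
    omega
  have h1 : k < (List.finRange (2 * k)).length := by
    rw [List.length_finRange]
    omega
  have h := split_rows (List.finRange (2 * k)) hk h0 h1
  have e0 : (List.finRange (2 * k))[0] = r0 k hk := by
    rw [List.getElem_finRange]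
    rfl
  have e1 : (List.finRange (2 * k))[k] = rk k hk := by
    rw [List.getElem_finRange]
    rfl
  rw [e0, e1] at h
  exact h

theorem rowsR_k : rowsR (Ik k) (Jk k) (xr (r0 k hk)) (xr (rk k hk)) =
    (List.finRange (2 * k)).map xr := by
  conv_rhs => rw [finRange_split hk]
  unfold rowsR Ik Jk
  rw [List.map_map, List.map_map, List.map_cons, List.map_append, List.map_cons]
  rfl

theorem rowsL_k : rowsL (Ik k) (Jk k) (xl (r0 k hk)) (xl (rk k hk)) =
    (List.finRange (2 * k)).map xl := by
  conv_rhs => rw [finRange_split hk]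
  unfold rowsL Ik Jk
  rw [List.map_map, List.map_map, List.map_cons, List.map_append, List.map_cons]
  rfl

/-- `Wk` in terms of the lists of all rows. -/
theorem Wk_eq : Wk k hk = VR (Sum.inr 0) (Sum.inr 1) (zk (2 * k)) ((List.finRange (2 * k)).map xr) fun p =>
    VR (Sum.inr 0) (Sum.inr 1) (zk (2 * k)) ((List.finRange (2 * k)).map xl).reverse fun p' =>
      glu (Ik k ++ Jk k) (HS.ind (arc (xr (r0 k hk)) (xr (rk k hk)))) (un p p') := by
  unfold Wk WR
  rw [rowsR_k hk, rowsL_k hk]

theorem all_nodup (n : ℕ) : ((List.finRange n).map xr ++ (List.finRange n).map xl : List (St n)).Nodup := by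
  rw [List.nodup_append]
  refine ⟨(List.nodup_finRange n).map fun i j h => by simpa using h,
    (List.nodup_finRange n).map fun i j h => by simpa using h, ?_⟩
  intro a ha b hb
  obtain ⟨i, -, rfl⟩ := List.mem_map.1 ha
  obtain ⟨j, -, rfl⟩ := List.mem_map.1 hb
  simp

theorem sites_perm {ι : Type*} (I J : List (ι × ι)) (a b q g : ι) :
    (sites I J [a] [b] q g).Perm (rowsR I J a q ++ rowsL I J b g) := by
  unfold sites rowsR rowsL
  rw [← Multiset.coe_eq_coe]
  simp only [List.map_append, List.cons_append, List.nil_append, ← Multiset.coe_add, ← Multiset.cons_coe,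
    ← Multiset.singleton_add, Multiset.coe_nil, add_zero]
  abel

theorem Ok_k : Ok (Ik k) (Jk k) [xr (r0 k hk)] [xl (r0 k hk)] (xr (rk k hk)) (xl (rk k hk))
    (xr (r0 k hk)) (xr (rk k hk)) where
  nd := by
    rw [(sites_perm _ _ _ _ _ _).nodup_iff, rowsR_k hk, rowsL_k hk]
    exact all_nodup _
  m_mem := by simp
  k_mem := Or.inl rfl

theorem spare_notMem (j : Fin 4) : (Sum.inr j : St (2 * k)) ∉
    sites (Ik k) (Jk k) [xr (r0 k hk)] [xl (r0 k hk)] (xr (rk k hk)) (xl (rk k hk)) := by
  rw [(sites_perm _ _ _ _ _ _).mem_iff, rowsR_k hk, rowsL_k hk]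
  simp

end Pool.Agent.NU5
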