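import Pool.Agent.NU5.Main
import Pool.Agent.NUQ2.BDRows
import Pool.Agent.BAR.ColG
import Pool.Agent.BAR.Glue

/-!
# From a bound of the gas of two cut rows to the growth of the half plane walks

`GasLe k c`: at generic rows as near as one wants to the physical rows the gas of two cut rows is at most `c`.
`LegUp`: `GasLe k (C * k ^ ε * bulkh k / 2 ^ (2 * k * (2 * k - 1)))` for odd `k`.  Then `HUp (61 / 48)`.
-/

set_option autoImplicit false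

namespace Pool.Agent.NU5

open Filter Topology
open NUTP (th)

/-- At generic rows as near as one wants to the physical rows the gas of two cut rows is at most `c`. -/
def GasLe (k : ℕ) (c : ℝ) : Prop := ∀ δ : ℝ, 0 < δ → ∃ (X Y : Fin (k - 1) → ℂ) (ra rb rq rg : ℂ),
  (∀ i, ‖X i - ph (k + 1 + i.val)‖ < δ) ∧ (∀ i, ‖Y i - ph (1 + i.val)‖ < δ) ∧
  ‖ra - ph 0‖ < δ ∧ ‖rb - ph 0‖ < δ ∧ ‖rq - ph k‖ < δ ∧ ‖rg - ph k‖ < δ ∧
  NUTP.G th (NUTP.ea ra :: NUTP.ea rb :: NUTP.ea rq :: NUTP.ea rg ::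
    ((List.ofFn fun i => NUTP.ea (X i)) ++ List.ofFn fun i => NUTP.ea (Y i))) ∧
  ‖gasR (List.ofFn fun i => NUTP.ea (X i)) (List.ofFn fun i => NUTP.ea (Y i))
    (NUTP.ea ra) (NUTP.ea rb) (NUTP.ea rq) (NUTP.ea rg)‖ ≤ c + δ

theorem GasLe.mono {k : ℕ} {c c' : ℝ} (h : GasLe k c) (hc : c ≤ c') : GasLe k c' := fun δ hδ => by
  obtain ⟨X, Y, ra, rb, rq, rg, h1, h2, h3, h4, h5, h6, h7, h8⟩ := h δ hδ
  exact ⟨X, Y, ra, rb, rq, rg, h1, h2, h3, h4, h5, h6, h7, by linarith⟩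

private theorem tend_of {a : ℕ → ℂ} {b : ℂ} (h : ∀ n, ‖a n - b‖ < 1 / ((n : ℝ) + 1)) : Tendsto a atTop (𝓝 b) := by
  rw [tendsto_iff_norm_sub_tendsto_zero]
  exact squeeze_zero (fun n => norm_nonneg _) (fun n => (h n).le) tendsto_one_div_add_atTop_nhds_zero_nat

/-- A bound at generic rows near the physical rows bounds the two-point function. -/
theorem norm_le_of_gasLe (hlat : LatData) (hgas : GasData) {k : ℕ} (h2 : 2 ≤ k) (hk : 1 ≤ k) {c : ℝ} (h : GasLe k c) :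
    ‖Bk k ^ 2 * Wk k hk‖ ≤ c := by
  have hpos : ∀ n : ℕ, (0 : ℝ) < 1 / ((n : ℝ) + 1) := fun n => by positivity
  choose X Y ra rb rq rg h1 h3 h4 h5 h6 h7 hg hb using fun n : ℕ => h (1 / ((n : ℝ) + 1)) (hpos n)
  have key := RRk' (X := X) (Y := Y) (ra := ra) (rb := rb) (rq := rq) (rg := rg) (l := atTop) hlat hgas h2 hk
    (fun i => tend_of fun n => h1 n i) (fun i => tend_of fun n => h3 n i) (tend_of h4) (tend_of h5) (tend_of h6)
    (tend_of h7) (Eventually.of_forall hg)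
  have h8 : Tendsto (fun n : ℕ => c + 1 / ((n : ℝ) + 1)) atTop (𝓝 (c + 0)) :=
    tendsto_const_nhds.add tendsto_one_div_add_atTop_nhds_zero_nat
  rw [add_zero] at h8
  exact le_of_tendsto_of_tendsto' key.norm h8 hb

/-- **The bound of the gas of two cut rows** (the numerator of the two-point function of the vertical cylinder). -/
def LegUp : Prop := ∀ ε : ℝ, 0 < ε → ∃ (C : ℝ) (k0 : ℕ), ∀ k : ℕ, k0 ≤ k → k % 2 = 1 →
  GasLe k (C * (k : ℝ) ^ ε * NUQ2.bulkh k / 2 ^ (2 * k * (2 * k - 1)))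

/-- The two-point function of the vertical cylinder. -/
theorem Wk_le (hlat : LatData) (hgas : GasData) (hleg : LegUp) {ε : ℝ} (hε : 0 < ε) :
    ∃ (A : ℝ) (k0 : ℕ), ∀ k : ℕ, k0 ≤ k → k % 2 = 1 → ∀ hk : 1 ≤ k, ‖Wk k hk‖ ≤ A * (k : ℝ) ^ (-(5 / 24) + ε) := by
  obtain ⟨C, k0, hC⟩ := hleg (ε / 2) (by positivity)
  obtain ⟨c, hc, hlow⟩ := NUQ2.BD_low_zk (e := ε / 2) (by positivity)
  refine ⟨C / c, k0 + 2, fun k hk0 hodd hk => ?_⟩
  have h1 := norm_le_of_gasLe hlat hgas (by omega) hk (hC k (by omega) hodd)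
  have h2 := (hlow k hk).1
  have hkR : (0 : ℝ) < k := by exact_mod_cast hk
  have hb := NUQ2.bulkh_pos k
  have hE : (0 : ℝ) < 2 ^ (2 * k * (2 * k - 1)) := by positivity
  rw [le_div_iff₀ hE, norm_mul, norm_pow] at h1
  have h3 : c * (k : ℝ) ^ (5 / 24 - ε / 2) * NUQ2.bulkh k * ‖Wk k hk‖ ≤ C * (k : ℝ) ^ (ε / 2) * NUQ2.bulkh k := by
    calc c * (k : ℝ) ^ (5 / 24 - ε / 2) * NUQ2.bulkh k * ‖Wk k hk‖ ≤
        2 ^ (2 * k * (2 * k - 1)) * ‖Bk k‖ ^ 2 * ‖Wk k hk‖ := mul_le_mul_of_nonneg_right h2 (norm_nonneg _)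
      _ = ‖Bk k‖ ^ 2 * ‖Wk k hk‖ * 2 ^ (2 * k * (2 * k - 1)) := by ring
      _ ≤ _ := h1
  have hp : 0 < (k : ℝ) ^ (5 / 24 - ε / 2) := by positivity
  have h4 : c * (k : ℝ) ^ (5 / 24 - ε / 2) * ‖Wk k hk‖ ≤ C * (k : ℝ) ^ (ε / 2) := by
    refine le_of_mul_le_mul_right ?_ hb
    calc c * (k : ℝ) ^ (5 / 24 - ε / 2) * ‖Wk k hk‖ * NUQ2.bulkh k =
        c * (k : ℝ) ^ (5 / 24 - ε / 2) * NUQ2.bulkh k * ‖Wk k hk‖ := by ring
      _ ≤ _ := h3
  have h5 : (k : ℝ) ^ (ε / 2) = (k : ℝ) ^ (-(5 / 24) + ε) * (k : ℝ) ^ (5 / 24 - ε / 2) := by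
    rw [← Real.rpow_add hkR]
    congr 1
    ring
  rw [h5] at h4
  refine le_of_mul_le_mul_left ?_ (mul_pos hc hp)
  calc c * (k : ℝ) ^ (5 / 24 - ε / 2) * ‖Wk k hk‖ ≤ C * ((k : ℝ) ^ (-(5 / 24) + ε) * (k : ℝ) ^ (5 / 24 - ε / 2)) := h4
    _ = c * (k : ℝ) ^ (5 / 24 - ε / 2) * (C / c * (k : ℝ) ^ (-(5 / 24) + ε)) := by
      field_simp

/-- For even `k` the vertical column walks do not exist. -/
theorem CW_even {k : ℕ} (hk : k % 2 = 0) : HexObs.BAR.CW (-1, 0) k = ∅ := by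
  rw [Set.eq_empty_iff_forall_notMem]
  rintro u ⟨-, -, -, h1, h2, -⟩
  have h3 : HexObs.ip (HexObs.vx HexObs.oo (-HexObs.BAR.mir (-1, 0)) u u.length) HexObs.up =
      (HexObs.vx HexObs.oo (-HexObs.BAR.mir (-1, 0)) u u.length).1 +
        2 * (HexObs.vx HexObs.oo (-HexObs.BAR.mir (-1, 0)) u u.length).2 :=
    HexObs.SDN.WNb.lvl_false _
  rw [h2, h1] at h3
  have h4 : ((-1, 0) : HexObs.Pt).1 = -1 := rfl
  rw [h4] at h3
  omega

/-- **The two-point function of the columns of the plane.** -/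
theorem CW_le (hlat : LatData) (hgas : GasData) (hleg : LegUp) {ε : ℝ} (hε : 0 < ε) :
    ∃ (A : ℝ) (k0 : ℕ), ∀ k : ℕ, k0 ≤ k →
      HexObs.gf (HexObs.BAR.CW (-1, 0) k) ≤ ENNReal.ofReal (A * (k : ℝ) ^ (-(5 / 24) + ε)) := by
  obtain ⟨A, k0, hA⟩ := Wk_le hlat hgas hleg hε
  refine ⟨A, k0 + 2, fun k hk => ?_⟩
  rcases Nat.mod_two_eq_zero_or_one k with h0 | h1
  · rw [CW_even h0]
    unfold HexObs.gf
    simp
  · refine (gf_le_Wk (by omega) h1 (by omega)).trans (ENNReal.ofReal_le_ofReal ?_)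
    exact (Complex.re_le_norm _).trans (hA k (by omega) h1 (by omega))

/-- **The growth of the half plane walks from above.** -/
theorem hUp_of_leg (hlat : LatData) (hgas : GasData) (hleg : LegUp) : HexObs.BAR.HUp (61 / 48) := by
  have h := HexObs.BAR.HH_le_of_CW (δ := (-1, 0)) (by decide) (b := 5 / 24) (by norm_num)
    fun ε hε => CW_le hlat hgas hleg hε
  intro ε hε
  obtain ⟨A, hA⟩ := h ε hε
  refine ⟨A, fun n hn => ?_⟩
  have := hA n hn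
  rwa [show ((11 / 4 - 5 / 24) / 2 + ε : ℝ) = 61 / 48 + ε by ring] at this

end Pool.Agent.NU5
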