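import Pool.Agent.NU5.Glue

/-!
# Lines with different imaginary parts are generic; `GasLe` from a limit
-/

set_option autoImplicit false

namespace Pool.Agent.NU5

open Filter Topology
open NUTP (th)

theorem norm_ea (z : ℂ) : ‖NUTP.ea z‖ = Real.exp (-z.im) := by
  unfold NUTP.ea
  rw [Complex.norm_exp]
  congr 1
  simp

theorem norm_th : ‖th‖ = 1 := by
  unfold NUTP.th
  rw [norm_ea]
  unfold NUTP.lam
  rw [Complex.ofReal_im, neg_zero, Real.exp_zero]

/-- **Lines with different imaginary parts are generic.** -/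
theorem G_of_im {S : List ℂ} (h : (S.map Complex.im).Nodup) : NUTP.G th (S.map NUTP.ea) := by
  unfold NUTP.G NUGas.Gen
  constructor
  · intro x hx
    rw [List.mem_map] at hx
    obtain ⟨y, hy, rfl⟩ := hx
    rw [List.mem_map] at hy
    obtain ⟨z, -, rfl⟩ := hy
    exact pow_ne_zero 2 (NUTP.ea_ne z)
  · rw [List.pairwise_map, List.pairwise_map]
    have h' : S.Pairwise fun a b => a.im ≠ b.im := List.pairwise_map.1 h
    refine h'.imp fun {a b} hab k e => hab ?_
    have e' := congrArg norm e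
    rw [norm_mul, norm_pow, norm_pow, norm_pow, norm_pow, norm_th, norm_ea, norm_ea] at e'
    simp only [one_pow, one_mul] at e'
    have e2 := (pow_left_inj₀ (Real.exp_pos _).le (Real.exp_pos _).le two_ne_zero).1 e'
    have e3 := Real.exp_injective e2
    linarith

variable {k : ℕ} {β : Type*} {l : Filter β} [l.NeBot] {x y : β → Fin (k - 1) → ℂ} {p h q g : β → ℂ}

/-- the imaginary parts of the lines -/
def ims (x y : Fin (k - 1) → ℂ) (p h q g : ℂ) : List ℝ :=
  p.im :: h.im :: q.im :: g.im :: ((List.ofFn fun i => (x i).im) ++ List.ofFn fun i => (y i).im)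

omit [l.NeBot] in
theorem G_ims {x y : Fin (k - 1) → ℂ} {p h q g : ℂ} (hi : (ims x y p h q g).Nodup) :
    NUTP.G th (NUTP.ea (-p) :: NUTP.ea (-h) :: NUTP.ea (-q) :: NUTP.ea (-g) ::
      ((List.ofFn fun i => NUTP.ea (-x i)) ++ List.ofFn fun i => NUTP.ea (-y i))) := by
  have e : NUTP.ea (-p) :: NUTP.ea (-h) :: NUTP.ea (-q) :: NUTP.ea (-g) ::
      ((List.ofFn fun i => NUTP.ea (-x i)) ++ List.ofFn fun i => NUTP.ea (-y i)) =
      ((-p) :: (-h) :: (-q) :: (-g) :: ((List.ofFn fun i => -x i) ++ List.ofFn fun i => -y i)).map NUTP.ea := by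
    simp only [List.map_cons, List.map_append, List.map_ofFn]
    rfl
  rw [e]
  apply G_of_im
  have e2 : ((-p) :: (-h) :: (-q) :: (-g) :: ((List.ofFn fun i => -x i) ++ List.ofFn fun i => -y i)).map
      Complex.im = (ims x y p h q g).map Neg.neg := by
    unfold ims
    simp only [List.map_cons, List.map_append, List.map_ofFn, Complex.neg_im]
    rfl
  rw [e2]
  exact hi.map neg_injective

/-- **`GasLe` from bounds along generic rows** (orientation of `NUP1.Leg.RE_leg`). -/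
theorem gasLe_of_le {c : ℝ} {r : β → ℝ} (hx : ∀ i, Tendsto (fun t => x t i) l (𝓝 (-ph (k + 1 + i.val))))
    (hy : ∀ i, Tendsto (fun t => y t i) l (𝓝 (-ph (1 + i.val))))
    (hp : Tendsto p l (𝓝 (-ph 0))) (hh : Tendsto h l (𝓝 (-ph 0)))
    (hq : Tendsto q l (𝓝 (-ph k))) (hg : Tendsto g l (𝓝 (-ph k)))
    (hi : ∀ᶠ t in l, (ims (x t) (y t) (p t) (h t) (q t) (g t)).Nodup)
    (hb : ∀ᶠ t in l, ‖(NUTP.Gas.gasF th 1 true (NUTP.ea (-q t)) (NUTP.ea (-g t))).RE
      (List.ofFn fun i => NUTP.ea (-x t i)) (List.ofFn fun i => NUTP.ea (-y t i)) (NUTP.ea (-p t))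
      (NUTP.ea (-h t))‖ ≤ r t) (hr : Tendsto r l (𝓝 c)) : GasLe k c := by
  intro δ hδ
  have near : ∀ {a : β → ℂ} {b : ℂ}, Tendsto a l (𝓝 (-b)) → ∀ᶠ t in l, ‖-a t - b‖ < δ := by
    intro a b hab
    have h1 := hab.neg
    rw [neg_neg] at h1
    exact h1.eventually (Metric.ball_mem_nhds b hδ |> fun hm => by
      filter_upwards [hm] with z hz
      rwa [Metric.mem_ball, dist_eq_norm] at hz)
  have h1 : ∀ᶠ t in l, ∀ i, ‖-x t i - ph (k + 1 + i.val)‖ < δ := eventually_all.2 fun i => near (hx i)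
  have h2 : ∀ᶠ t in l, ∀ i, ‖-y t i - ph (1 + i.val)‖ < δ := eventually_all.2 fun i => near (hy i)
  have h3 : ∀ᶠ t in l, r t ≤ c + δ := (hr.eventually (gt_mem_nhds (lt_add_of_pos_right c hδ))).mono fun t ht => ht.le
  obtain ⟨t, g1, g2, g3, g4, g5, g6, g7, g8, g9⟩ := (h1.and (h2.and ((near hp).and ((near hh).and ((near hq).and
    ((near hg).and (hi.and (hb.and h3)))))))).exists
  exact ⟨fun i => -x t i, fun i => -y t i, -p t, -h t, -q t, -g t, g1, g2, g3, g4, g5, g6, G_ims g7, g8.trans g9⟩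

/-- **`GasLe` from a limit along generic rows** (orientation of `NUP1.Leg.RE_leg`). -/
theorem gasLe_of_tendsto {c : ℝ} {Z : ℂ} (hx : ∀ i, Tendsto (fun t => x t i) l (𝓝 (-ph (k + 1 + i.val))))
    (hy : ∀ i, Tendsto (fun t => y t i) l (𝓝 (-ph (1 + i.val))))
    (hp : Tendsto p l (𝓝 (-ph 0))) (hh : Tendsto h l (𝓝 (-ph 0)))
    (hq : Tendsto q l (𝓝 (-ph k))) (hg : Tendsto g l (𝓝 (-ph k)))
    (hi : ∀ᶠ t in l, (ims (x t) (y t) (p t) (h t) (q t) (g t)).Nodup)
    (hZ : Tendsto (fun t => (NUTP.Gas.gasF th 1 true (NUTP.ea (-q t)) (NUTP.ea (-g t))).RE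
      (List.ofFn fun i => NUTP.ea (-x t i)) (List.ofFn fun i => NUTP.ea (-y t i)) (NUTP.ea (-p t))
      (NUTP.ea (-h t))) l (𝓝 Z)) (hc : ‖Z‖ ≤ c) : GasLe k c :=
  (gasLe_of_le hx hy hp hh hq hg hi (Eventually.of_forall fun _ => le_rfl) hZ.norm).mono hc

end Pool.Agent.NU5
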