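import Pool.Agent.NU5.Refl
import Pool.Agent.MXR.Maj

/-!
# The two-point function of the vertical cylinder: regularity of the rings
-/

set_option autoImplicit false

namespace Pool.Agent.NU5

open _root_.Pool.Agent.EXL _root_.Pool.Agent.EXL.Pat _root_.Pool.Agent.NUF _root_.Pool.Agent.NUU
  _root_.Pool.Agent.NUT2 _root_.Pool.Agent.NUBD Filter Topology
open NUTP (th)

theorem zk_eq (N : ℕ) : zk N = MXR.z0 N := by
  funext j
  rcases j with ⟨i, s⟩ | j
  · show (if i.val % 2 = 0 then (0 : ℂ) else -EXL.Fm.lam) = MXR.zrow ((i : ℕ) : ℤ)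
    unfold MXR.zrow
    by_cases h : i.val % 2 = 0
    · rw [if_pos h, if_neg (by omega)]
    · rw [if_neg h, if_pos (by omega)]
  · rfl

theorem regR_right {k : ℕ} (hk : 2 ≤ k) :
    RegR (Sum.inr 0) (Sum.inr 1) (zk (2 * k)) ((List.finRange (2 * k)).map xr) := by
  rw [zk_eq]
  exact MXR.regR_R hk

theorem regR_left {k : ℕ} (hk : 2 ≤ k) :
    RegR (Sum.inr 0) (Sum.inr 1) (zk (2 * k)) ((List.finRange (2 * k)).map xl).reverse := by
  rw [zk_eq]
  exact MXR.regR_L hk

end Pool.Agent.NU5
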