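import Pool.Agent.NUU.DiscRel
import Pool.Agent.NUT2.Ring2
import Pool.Agent.NUT2.Tp1

/-!
# The disc functional and the functional of the ring; limits

At generic rapidities `UD z X` is a multiple of `VR c d z X`; the ring functional is continuous also at points
where the rapidities are not generic.
-/

set_option autoImplicit false

namespace Pool.Agent.NU5

open _root_.Pool.Agent.EXL _root_.Pool.Agent.EXL.Pat _root_.Pool.Agent.NUF _root_.Pool.Agent.NUU
  _root_.Pool.Agent.NUT2 Filter Topology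

section one

variable {ι : Type*} [DecidableEq ι] [Finite ι] {z : ι → ℂ} {X : List ι} {c d : ι}

/-- **The disc functional is a multiple of the functional of the ring.** -/
theorem UD_eq_VR (hn : X.Nodup) (hcd : c ≠ d) (hc : c ∉ X) (hd : d ∉ X) (hG : Gz z X)
    (h6 : UD z X ∘ₗ rg z c d (Real.pi / 8) X = UD z X) (hR : RegR c d z X) :
    UD z X = UD z X (HS.ind Pat.empty) • VR c d z X := by
  have hV := isR_VR hn hcd hc hd hR
  rw [← sub_eq_zero]
  apply fix_unique (A := AX X) (T := rg z c d (Real.pi / 8) X) hR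
  · exact (UD_sup hn hc hd hcd hG).sub (hV.sup.smul _)
  · rw [LinearMap.sub_comp, LinearMap.smul_comp, h6, hV.fix]
  · rw [LinearMap.sub_apply, LinearMap.smul_apply, hV.one, smul_eq_mul, mul_one, sub_self]

variable {β : Type*} {l : Filter β} {zb : β → ι → ℂ} {z0 : ι → ℂ} {B : ℂ}

/-- **The limit of the disc functionals.** -/
theorem UD_lim (hn : X.Nodup) (hcd : c ≠ d) (hc : c ∉ X) (hd : d ∉ X)
    (hz : Tendsto zb l (𝓝 z0)) (hG : ∀ᶠ b in l, Gz (zb b) X)
    (h6 : ∀ᶠ b in l, UD (zb b) X ∘ₗ rg (zb b) c d (Real.pi / 8) X = UD (zb b) X)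
    (hok : ∀ j ∈ X, okR (Real.pi / 8 - z0 j)) (hR : RegR c d z0 X)
    (hB : Tendsto (fun b => UD (zb b) X (HS.ind Pat.empty)) l (𝓝 B)) :
    LmF l (fun b => UD (zb b) X) (B • VR c d z0 X) := by
  obtain ⟨h1, h2⟩ := regR_near hn hcd hc hd (Z := ι → ℂ) (ζ := fun y => y) (y0 := z0)
    (fun j _ => (continuous_apply j).continuousAt) hok hR
  refine LmF.congr' (LmF.smul hB fun F => (h2 F).tendsto.comp hz) ?_
  filter_upwards [hz.eventually h1, hG, h6] with b hb1 hb2 hb3
  exact (UD_eq_VR hn hcd hc hd hb2 hb3 hb1).symm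

end one

section pairing

variable {Γ ι : Type*} [AddCommGroup Γ] [DecidableEq ι] [Finite ι] {β : Type*} {l : Filter β}
  {V V' : β → Fnl ι} {V0 V0' : Fnl ι}

theorem pr_lim (h : LmF l V V0) (h' : LmF l V' V0') (F : LPat Γ ι → ℂ) :
    Tendsto (fun b => pr Γ (V b) (V' b) F) l (𝓝 (pr Γ V0 V0' F)) := by
  simp only [pr_apply]
  exact h.app fun p => h' _

theorem Wp_lim (h : LmF l V V0) (h' : LmF l V' V0') (ν : Γ → ℂ) (χ : ι → Γ) (m q : ι)
    (L : List (ι × ι)) :
    Tendsto (fun b => Wp ν χ (V b) (V' b) m q L) l (𝓝 (Wp ν χ V0 V0' m q L)) :=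
  pr_lim h h' _

omit [Finite ι] in
theorem Wp_smul (ν : Γ → ℂ) (χ : ι → Γ) (m q : ι) (L : List (ι × ι)) (a b : ℂ) (V V' : Fnl ι) :
    Wp ν χ (a • V) (b • V') m q L = a * b * Wp ν χ V V' m q L := by
  unfold Wp
  rw [pr_smul_left, pr_smul_right, mul_assoc]

end pairing

end Pool.Agent.NU5
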