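import Pool.Agent.NU5.RRg

/-!
# The two-point function with two cut rows at non generic points

`RR_tendsto`: the gas of two cut rows at generic lines tends to the product of the two scalars and the two-point
function `WR` of the ring functionals.
-/

set_option autoImplicit false

namespace Pool.Agent.NU5

open _root_.Pool.Agent.EXL _root_.Pool.Agent.EXL.Pat _root_.Pool.Agent.NUF _root_.Pool.Agent.NUU
  _root_.Pool.Agent.NUT2 Filter Topology
open NUTP (th)
open Complex (I exp)
open _root_.Pool.Agent.EXL.Fm (lam)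

/-- no two rapidities differ by a multiple of `λ` -/
def Gl (x y : ℂ) : Prop := ∀ k : ℕ, Complex.sin (x - y + k * lam) ≠ 0

theorem lam_eq : (NUTP.lam : ℂ) = lam := by
  unfold NUTP.lam EXL.Fm.lam
  push_cast
  ring

theorem Gl_symm {x y : ℂ} (h : Gl x y) : Gl y x := by
  intro k hk
  apply h (7 * k)
  have e : x - y + ((7 * k : ℕ) : ℂ) * lam = -(y - x + k * lam) + (k : ℂ) * Real.pi := by
    unfold EXL.Fm.lam
    push_cast
    ring
  rw [e, Complex.sin_add, Complex.sin_neg, hk, Complex.sin_nat_mul_pi]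
  simp

theorem G_rows {α : Type*} (z : α → ℂ) (X : List α) :
    NUTP.G th (X.map fun i => NUTP.ea (z i)) ↔ X.Pairwise fun i j => Gl (z i) (z j) := by
  have e : (X.map fun i => NUTP.ea (z i)) = (X.map z).map NUTP.ea := by
    rw [List.map_map]
    rfl
  rw [e, NUTP.G_ea, List.pairwise_map]
  unfold Gl
  rw [lam_eq]

theorem Gz_of_G {α : Type*} {z : α → ℂ} {X : List α}
    (h : NUTP.G th (X.map fun i => NUTP.ea (z i))) : Gz z X := by
  have h1 := (G_rows z X).1 h
  have hs : ∀ i ∈ X, ∀ j ∈ X, i ≠ j → Gl (z i) (z j) := by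
    intro i hi j hj hij
    have : Std.Symm fun i j => Gl (z i) (z j) := ⟨fun a b hab => Gl_symm hab⟩
    exact h1.forall hi hj hij
  constructor
  · intro i hi j hj hij
    have := hs i hi j hj hij 0
    simpa using this
  · intro i hi j hj hij
    have h2 := hs i hi j hj hij 2
    have h3 := hs i hi j hj hij 3
    push_cast at h2 h3
    unfold EXL.Fm.Dn
    rw [add_comm (2 * lam), add_comm (3 * lam)]
    exact mul_ne_zero h2 h3

variable {ι : Type*} [DecidableEq ι] [Finite ι] {K L : List (ι × ι)} {a b q g c d : ι} {β : Type*}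
  {l : Filter β} {zt : β → ι → ℂ} {zz : ι → ℂ} {x Br Bl : ℂ}

omit [DecidableEq ι] [Finite ι] in
theorem notMem_rows (hc : c ∉ sites K L [a] [b] q g) :
    c ∉ rowsR K L a q ∧ c ∉ rowsL K L b g := by
  unfold sites at hc
  unfold rowsR rowsL
  simp only [List.mem_append, List.mem_cons, List.map_append, List.cons_append, List.nil_append,
    List.not_mem_nil, or_false, not_or] at hc ⊢
  tauto

omit [DecidableEq ι] [Finite ι] in
theorem G_rowsR {z : ι → ℂ} (hgen : NUTP.G th (NUTP.ea (z a) :: NUTP.ea (z b) :: NUTP.ea (z q) ::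
    NUTP.ea (z g) :: (K.map (li z) ++ L.map (li z)))) : Gz z (rowsR K L a q) := by
  refine Gz_of_G ?_
  have e : ((rowsR K L a q).map fun i => NUTP.ea (z i)) =
      NUTP.ea (z a) :: (L.map (li z) ++ NUTP.ea (z q) :: K.map (li z)) := by
    unfold rowsR li
    simp [Function.comp_def]
  rw [e]
  have h1 : (NUTP.ea (z a) :: NUTP.ea (z q) :: (K.map (li z) ++ L.map (li z))).Perm
      (NUTP.ea (z a) :: (L.map (li z) ++ NUTP.ea (z q) :: K.map (li z))) := by
    refine List.Perm.cons _ (List.Perm.trans ?_ List.perm_middle.symm)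
    exact List.Perm.cons _ List.perm_append_comm
  refine NUTP.G.perm NUTP.th8 h1 (NUTP.G.subl ?_ hgen)
  refine List.Sublist.cons_cons _ (List.Sublist.cons _ (List.Sublist.cons_cons _ (List.Sublist.cons _ ?_)))
  exact List.Sublist.refl _

omit [DecidableEq ι] [Finite ι] in
theorem G_rowsL {z : ι → ℂ} (hz : ∀ t ∈ K ++ L, z t.2 = z t.1)
    (hgen : NUTP.G th (NUTP.ea (z a) :: NUTP.ea (z b) :: NUTP.ea (z q) ::
      NUTP.ea (z g) :: (K.map (li z) ++ L.map (li z)))) : Gz z (rowsL K L b g) := by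
  refine Gz_of_G ?_
  have e : ((rowsL K L b g).map fun i => NUTP.ea (z i)) =
      NUTP.ea (z b) :: (L.map (li z) ++ NUTP.ea (z g) :: K.map (li z)) := by
    unfold rowsL
    rw [List.map_cons, List.map_append, List.map_cons, List.map_map, List.map_map]
    congr 2
    · refine List.map_congr_left fun t ht => ?_
      show NUTP.ea (z t.2) = li z t
      rw [hz t (List.mem_append_right _ ht), li]
    · congr 1
      refine List.map_congr_left fun t ht => ?_
      show NUTP.ea (z t.2) = li z t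
      rw [hz t (List.mem_append_left _ ht), li]
  rw [e]
  have h1 : (NUTP.ea (z b) :: NUTP.ea (z g) :: (K.map (li z) ++ L.map (li z))).Perm
      (NUTP.ea (z b) :: (L.map (li z) ++ NUTP.ea (z g) :: K.map (li z))) := by
    refine List.Perm.cons _ (List.Perm.trans ?_ List.perm_middle.symm)
    exact List.Perm.cons _ List.perm_append_comm
  refine NUTP.G.perm NUTP.th8 h1 (NUTP.G.subl ?_ hgen)
  refine List.Sublist.cons _ (List.Sublist.cons_cons _ (List.Sublist.cons _ (List.Sublist.cons_cons _ ?_)))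
  exact List.Sublist.refl _

/-- **The gas of two cut rows tends to the two-point function of the ring functionals.** -/
theorem RR_tendsto (hl : LatData) (hg : GasData) (hO : Ok K L [a] [b] q g a q) (hcd : c ≠ d)
    (hc : c ∉ sites K L [a] [b] q g) (hd : d ∉ sites K L [a] [b] q g)
    (hz : ∀ t, ∀ s ∈ K ++ L, zt t s.2 = zt t s.1)
    (hgen : ∀ᶠ t in l, NUTP.G th (NUTP.ea (zt t a) :: NUTP.ea (zt t b) :: NUTP.ea (zt t q) ::
      NUTP.ea (zt t g) :: (K.map (li (zt t)) ++ L.map (li (zt t)))))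
    (hzr : ∀ j ∈ rowsR K L a q, Tendsto (fun t => x - zt t j) l (𝓝 (zz j)))
    (hzl : ∀ j ∈ rowsL K L b g, Tendsto (fun t => x - zt t j) l (𝓝 (zz j)))
    (hokr : ∀ j ∈ rowsR K L a q, okR (Real.pi / 8 - zz j))
    (hokl : ∀ j ∈ rowsL K L b g, okR (Real.pi / 8 - zz j))
    (hRr : RegR c d zz (rowsR K L a q)) (hRl : RegR c d zz (rowsL K L b g).reverse)
    (hUr : UDRing c d (rowsR K L a q)) (hUl : UDRing c d (rowsL K L b g).reverse)
    (hrf : UDRefl (rowsL K L b g).reverse)
    (hBr : Tendsto (fun t => BE (fun i => x - zt t i) (rowsR K L a q)) l (𝓝 Br))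
    (hBl : Tendsto (fun t => BE (fun i => x - zt t i) (rowsL K L b g).reverse) l (𝓝 Bl)) :
    Tendsto (fun t => gasR (K.map (li (zt t))) (L.map (li (zt t))) (NUTP.ea (zt t a))
      (NUTP.ea (zt t b)) (NUTP.ea (zt t q)) (NUTP.ea (zt t g))) l
      (𝓝 (Br * Bl * WR c d zz K L a b q g)) := by
  have h1 := notMem_rows hc
  have h2 := notMem_rows hd
  refine (WL_lim (x := x) hO hcd h1.1 h2.1 h1.2 h2.2 hzr hzl ?_ ?_ hokr hokl hRr hRl hUr hUl hrf hBr
    hBl).congr' ?_
  · exact hgen.mono fun t ht => G_rowsR ht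
  · exact hgen.mono fun t ht => G_rowsL (hz t) ht
  · exact hgen.mono fun t ht => WL_gas hl hg hO hcd hc hd (hz t) ht

end Pool.Agent.NU5
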