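import Pool.Agent.NU5.RRl
import Pool.Agent.NUTP.Uniq
import Pool.Agent.NUTP.Bridge
import Pool.Agent.NUTP.Gas.Defs

/-!
# The two-point function with two cut rows: lattice = gas

From the uniqueness theorem `NUTP.uniq` (the lattice family and the gas family satisfy the same list of properties).
-/

set_option autoImplicit false

namespace Pool.Agent.NU5

open _root_.Pool.Agent.EXL _root_.Pool.Agent.EXL.Pat _root_.Pool.Agent.NUF _root_.Pool.Agent.NUU
  _root_.Pool.Agent.NUT2 Filter Topology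
open NUTP (th)
open Complex (I exp)

/-- The lattice family has the properties. -/
def LatData : Prop := ∀ q g : ℂ, NUTP.Data th 1 q g (fam 1 0 q g)

/-- The gas family has the properties. -/
def GasData : Prop := ∀ q g : ℂ, NUTP.Data th 1 q g (NUTP.Gas.gasF th 1 true q g)

/-- The gas of the two cut rows. -/
noncomputable def gasR (K L : List ℂ) (a b q g : ℂ) : ℂ := (NUTP.Gas.gasF th 1 true q g).RE K L a b

theorem fam_gas (hl : LatData) (hg : GasData) {K L : List ℂ} {a b q g : ℂ}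
    (hgen : NUTP.G th (a :: b :: q :: g :: (K ++ L))) :
    WC 1 K L ![q, g, a, b, 1, 1] [2] [3] 2 0 = gasR K L a b q g :=
  ((NUTP.uniq NUTP.th8 (hl q g) (hg q g) K L).2 a b hgen).2.2.1

variable {ι : Type*} [DecidableEq ι] {K L : List (ι × ι)} {a b q g c d : ι} {z : ι → ℂ}

/-- the line of a row -/
noncomputable def li (z : ι → ℂ) (t : ι × ι) : ℂ := NUTP.ea (z t.1)

/-- **Lattice = gas for the two cut rows.** -/
theorem WL_gas (hl : LatData) (hg : GasData) (hO : Ok K L [a] [b] q g a q) (hcd : c ≠ d)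
    (hc : c ∉ sites K L [a] [b] q g) (hd : d ∉ sites K L [a] [b] q g)
    (hz : ∀ t ∈ K ++ L, z t.2 = z t.1)
    (hgen : NUTP.G th (NUTP.ea (z a) :: NUTP.ea (z b) :: NUTP.ea (z q) :: NUTP.ea (z g) :: (K.map (li z) ++ L.map (li z)))) :
    WL 1 z K L [a] [b] q g a q =
      gasR (K.map (li z)) (L.map (li z)) (NUTP.ea (z a)) (NUTP.ea (z b)) (NUTP.ea (z q)) (NUTP.ea (z g)) := by
  rw [← fam_gas hl hg hgen]
  have hn := hO.nd
  unfold sites at hn hc hd
  have hG : Gd (K ++ L) := (List.nodup_append.1 hn).1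
  have h2 : (q :: g :: ([a] ++ [b])).Nodup := (List.nodup_append.1 hn).2.1
  have h3 := (List.nodup_append.1 hn).2.2
  simp only [List.mem_append, not_or] at hc hd
  have hdl : ∀ x ∈ (q :: g :: ([a] ++ [b])), ∀ t ∈ K ++ L, x ≠ t.1 ∧ x ≠ t.2 := by
    intro x hx t ht
    constructor
    · intro e
      exact h3 t.1 (List.mem_append_left _ (List.mem_map_of_mem ht)) x hx e.symm
    · intro e
      exact h3 t.2 (List.mem_append_right _ (List.mem_map_of_mem ht)) x hx e.symm
  have hcl : ∀ t ∈ K ++ L, c ≠ t.1 ∧ c ≠ t.2 := fun t ht =>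
    ⟨fun e => hc.1.1 (by rw [e]; exact List.mem_map_of_mem ht),
      fun e => hc.1.2 (by rw [e]; exact List.mem_map_of_mem ht)⟩
  have hdl' : ∀ t ∈ K ++ L, d ≠ t.1 ∧ d ≠ t.2 := fun t ht =>
    ⟨fun e => hd.1.1 (by rw [e]; exact List.mem_map_of_mem ht),
      fun e => hd.1.2 (by rw [e]; exact List.mem_map_of_mem ht)⟩
  have h5 : ([q, g, a, b, c, d] : List ι).Nodup := by
    simp only [List.nodup_cons, List.mem_cons, List.not_mem_nil, or_false, not_or,
      List.cons_append, List.nil_append, not_false_eq_true, List.nodup_nil, and_true] at h2 hc hd ⊢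
    refine ⟨⟨h2.1.1, h2.1.2.1, h2.1.2.2, fun e => hc.2.1 e.symm, fun e => hd.2.1 e.symm⟩,
      ⟨h2.2.1.1, h2.2.1.2, fun e => hc.2.2.1 e.symm, fun e => hd.2.2.1 e.symm⟩,
      ⟨h2.2.2, fun e => hc.2.2.2.1 e.symm, fun e => hd.2.2.2.1 e.symm⟩,
      ⟨fun e => hc.2.2.2.2 e.symm, fun e => hd.2.2.2.2 e.symm⟩, hcd⟩
  set s : Fin 6 → ι := ![q, g, a, b, c, d] with hs
  have hs6 : List.ofFn s = [q, g, a, b, c, d] := by
    rw [hs]
    simp [List.ofFn_succ]
  have hinj : Function.Injective s := by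
    rw [← List.nodup_ofFn, hs6]
    exact h5
  refine WL_eq_WC (s := s) (A := [2]) (B := [3]) (m := 2) (k := 0) (v := ![NUTP.ea (z q), NUTP.ea (z g), NUTP.ea (z a),
    NUTP.ea (z b), 1, 1]) (Or.inl rfl) hinj hG ?_ (by decide) (by simp) (Or.inl rfl) (fun t ht => by rw [hz t ht])
    ?_ rfl rfl
  · intro k t ht
    fin_cases k
    · exact hdl q (by simp) t ht
    · exact hdl g (by simp) t ht
    · exact hdl a (by simp) t ht
    · exact hdl b (by simp) t ht
    · exact hcl t ht
    · exact hdl' t ht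
  · intro j hj
    simp only [List.cons_append, List.nil_append, List.mem_cons, List.not_mem_nil, or_false] at hj
    rcases hj with rfl | rfl | rfl | rfl <;> rfl

end Pool.Agent.NU5
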