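import Pool.Agent.NU5.Final2
import Pool.Agent.NUU.Rot2

/-!
# The two-point function of the vertical cylinder: the reflection of the disc functional
-/

set_option autoImplicit false

namespace Pool.Agent.NU5

open _root_.Pool.Agent.EXL _root_.Pool.Agent.EXL.Pat _root_.Pool.Agent.NUF _root_.Pool.Agent.NUU
  _root_.Pool.Agent.NUT2 _root_.Pool.Agent.NUBD Filter Topology

/-- The value of the disc functional at the empty state is even. -/
theorem beNeg (β : Type*) [DecidableEq β] [Finite β] : BENeg β := by
  intro z X hn hG
  rw [BE_eq_BD hn (Gz_neg hG), BE_eq_BD hn hG]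
  exact BD_neg z X

/-- The disc functional read from the other side. -/
theorem udRefl {α : Type*} [DecidableEq α] [Finite α] {X : List α} (hn : X.Nodup)
    (hU : UDRingAll (α ⊕ Fin 4)) : UDRefl X := fun _ hG => refl_all hU (beNeg _) hn hG

end Pool.Agent.NU5
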