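import Pool.Agent.NUU.Rot4
import Pool.Agent.NU5.RRl

/-!
# The disc read from the other side (helper72)

`uDRefl`: the hypothesis `UDRefl X` of `WL_lim` for every nodup list on a finite label type.
-/

set_option autoImplicit false

namespace Pool.Agent.NU5

theorem uDRefl {α : Type*} [DecidableEq α] [Finite α] {X : List α} (hn : X.Nodup) : UDRefl X :=
  fun _ hG => NUU.UD_refl hn hG

end Pool.Agent.NU5
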