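import Pool.Agent.NU5.Leg2
import Pool.Agent.NUTP.Gas.Asm

/-!
# `GasLe` for rows in any order
-/

set_option autoImplicit false

namespace Pool.Agent.NU5

open Filter Topology
open NUTP (th)

/-- Two sign patterns with the same number of `true` differ by a permutation. -/
theorem exists_sgn {n : ℕ} {s s' : Fin n → Bool}
    (h : (Finset.univ.filter fun i => s i = true).card = (Finset.univ.filter fun i => s' i = true).card) :
    ∃ σ : Equiv.Perm (Fin n), ∀ i, s (σ i) = s' i := by
  have h2 : (Finset.univ.filter fun i => s i = false).card = (Finset.univ.filter fun i => s' i = false).card := by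
    have e1 := Finset.card_filter_add_card_filter_not (s := (Finset.univ : Finset (Fin n))) (fun i => s i = true)
    have e2 := Finset.card_filter_add_card_filter_not (s := (Finset.univ : Finset (Fin n))) (fun i => s' i = true)
    simp only [Bool.not_eq_true] at e1 e2
    omega
  have key : ∀ c : Bool, Nonempty ({a : Fin n // s' a = c} ≃ {b : Fin n // s b = c}) := by
    intro c
    apply Fintype.card_eq.1
    rw [Fintype.card_subtype, Fintype.card_subtype]
    cases c
    · exact h2.symm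
    · exact h.symm
  refine ⟨Equiv.ofFiberEquiv fun c => (key c).some, fun i => ?_⟩
  exact Equiv.ofFiberEquiv_map _ i

theorem card_even (M : ℕ) : (Finset.univ.filter fun i : Fin (2 * M) => decide (i.val % 2 = 0) = true).card = M := by
  rw [Finset.card_filter]
  simp only [decide_eq_true_eq]
  rw [Fin.sum_univ_eq_sum_range (fun i => if i % 2 = 0 then 1 else 0) (2 * M)]
  induction M with
  | zero => simp
  | succ M ih =>
    rw [show 2 * (M + 1) = 2 * M + 1 + 1 by ring, Finset.sum_range_succ, Finset.sum_range_succ, ih,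
      if_pos (by omega), if_neg (by omega)]

theorem card_odd (M : ℕ) : (Finset.univ.filter fun i : Fin (2 * M) => decide (i.val % 2 = 1) = true).card = M := by
  rw [Finset.card_filter]
  simp only [decide_eq_true_eq]
  rw [Fin.sum_univ_eq_sum_range (fun i => if i % 2 = 1 then 1 else 0) (2 * M)]
  induction M with
  | zero => simp
  | succ M ih =>
    rw [show 2 * (M + 1) = 2 * M + 1 + 1 by ring, Finset.sum_range_succ, Finset.sum_range_succ, ih,
      if_neg (by omega), if_pos (by omega)]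

theorem neg_ph (r : ℕ) : -ph r = if r % 2 = 0 then ((Real.pi / 16 : ℝ) : ℂ) else -((Real.pi / 16 : ℝ) : ℂ) := by
  unfold ph _root_.Pool.Agent.EXL.Fm.lam
  split_ifs
  · push_cast
    ring
  · push_cast
    ring

section
variable {k : ℕ} {β : Type*} {l : Filter β} [l.NeBot] {x y : β → Fin (k - 1) → ℂ} {p h q g : β → ℂ}

/-- The order of the rows does not matter. -/
theorem gasLe_perm {c : ℝ} {r : β → ℝ} (σ τ : Equiv.Perm (Fin (k - 1)))
    (hx : ∀ i, Tendsto (fun t => x t (σ i)) l (𝓝 (-ph (k + 1 + i.val))))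
    (hy : ∀ i, Tendsto (fun t => y t (τ i)) l (𝓝 (-ph (1 + i.val))))
    (hp : Tendsto p l (𝓝 (-ph 0))) (hh : Tendsto h l (𝓝 (-ph 0)))
    (hq : Tendsto q l (𝓝 (-ph k))) (hg : Tendsto g l (𝓝 (-ph k)))
    (hi : ∀ᶠ t in l, (ims (x t) (y t) (p t) (h t) (q t) (g t)).Nodup)
    (hb : ∀ᶠ t in l, ‖(NUTP.Gas.gasF th 1 true (NUTP.ea (-q t)) (NUTP.ea (-g t))).RE
      (List.ofFn fun i => NUTP.ea (-x t i)) (List.ofFn fun i => NUTP.ea (-y t i)) (NUTP.ea (-p t))
      (NUTP.ea (-h t))‖ ≤ r t) (hr : Tendsto r l (𝓝 c)) : GasLe k c := by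
  refine gasLe_of_le (x := fun t i => x t (σ i)) (y := fun t i => y t (τ i)) hx hy hp hh hq hg ?_ ?_ hr
  · refine hi.mono fun t ht => ?_
    refine (List.Perm.nodup_iff ?_).1 ht
    unfold ims
    refine (((List.Perm.append ?_ ?_).cons _).cons _).cons _ |>.cons _
    · exact (Equiv.Perm.ofFn_comp_perm σ fun i => (x t i).im).symm
    · exact (Equiv.Perm.ofFn_comp_perm τ fun i => (y t i).im).symm
  · refine hb.mono fun t ht => ?_
    rw [NUTP.Gas.As.RE_perm NUTP.th8 (Equiv.Perm.ofFn_comp_perm σ fun i => NUTP.ea (-x t i)).symm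
      (Equiv.Perm.ofFn_comp_perm τ fun i => NUTP.ea (-y t i)).symm] at ht
    exact ht

end

section
variable {M : ℕ} {β : Type*} {l : Filter β} [l.NeBot] {x y : β → Fin (2 * M) → ℂ} {p h q g : β → ℂ}

/-- **`GasLe` for rows `± π / 16` in any order** (orientation of `NUP1.Leg.RE_leg`; `π / 16 = l / 2`). -/
theorem gasLe_sgn {c : ℝ} {r : β → ℝ} {sx sy : Fin (2 * M) → Bool}
    (cx : (Finset.univ.filter fun i => sx i = true).card = M) (cy : (Finset.univ.filter fun i => sy i = true).card = M)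
    (hx : ∀ i, Tendsto (fun t => x t i) l (𝓝 (if sx i then ((Real.pi / 16 : ℝ) : ℂ) else -((Real.pi / 16 : ℝ) : ℂ))))
    (hy : ∀ i, Tendsto (fun t => y t i) l (𝓝 (if sy i then ((Real.pi / 16 : ℝ) : ℂ) else -((Real.pi / 16 : ℝ) : ℂ))))
    (hp : Tendsto p l (𝓝 ((Real.pi / 16 : ℝ) : ℂ))) (hh : Tendsto h l (𝓝 ((Real.pi / 16 : ℝ) : ℂ)))
    (hq : Tendsto q l (𝓝 (-((Real.pi / 16 : ℝ) : ℂ)))) (hg : Tendsto g l (𝓝 (-((Real.pi / 16 : ℝ) : ℂ))))
    (hi : ∀ᶠ t in l, (ims (k := 2 * M + 1) (x t) (y t) (p t) (h t) (q t) (g t)).Nodup)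
    (hb : ∀ᶠ t in l, ‖(NUTP.Gas.gasF th 1 true (NUTP.ea (-q t)) (NUTP.ea (-g t))).RE
      (List.ofFn fun i => NUTP.ea (-x t i)) (List.ofFn fun i => NUTP.ea (-y t i)) (NUTP.ea (-p t))
      (NUTP.ea (-h t))‖ ≤ r t) (hr : Tendsto r l (𝓝 c)) : GasLe (2 * M + 1) c := by
  obtain ⟨σ, hσ⟩ := exists_sgn (s := sx) (s' := fun i : Fin (2 * M) => decide (i.val % 2 = 0))
    (by rw [cx, card_even])
  obtain ⟨τ, hτ⟩ := exists_sgn (s := sy) (s' := fun i : Fin (2 * M) => decide (i.val % 2 = 1))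
    (by rw [cy, card_odd])
  refine gasLe_perm (k := 2 * M + 1) (x := x) (y := y) σ τ (fun i => ?_) (fun i => ?_) ?_ ?_ ?_ ?_ hi hb hr
  · have h1 := hx (σ i)
    rw [hσ i] at h1
    have e : -ph (2 * M + 1 + 1 + i.val) = if decide (i.val % 2 = 0) = true then ((Real.pi / 16 : ℝ) : ℂ)
        else -((Real.pi / 16 : ℝ) : ℂ) := by
      rw [neg_ph]
      simp only [decide_eq_true_eq]
      by_cases hi2 : i.val % 2 = 0
      · rw [if_pos hi2, if_pos (by omega)]
      · rw [if_neg hi2, if_neg (by omega)]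
    rw [e]
    exact h1
  · have h1 := hy (τ i)
    rw [hτ i] at h1
    have e : -ph (1 + i.val) = if decide (i.val % 2 = 1) = true then ((Real.pi / 16 : ℝ) : ℂ)
        else -((Real.pi / 16 : ℝ) : ℂ) := by
      rw [neg_ph]
      simp only [decide_eq_true_eq]
      by_cases hi2 : i.val % 2 = 1
      · rw [if_pos hi2, if_pos (by omega)]
      · rw [if_neg hi2, if_neg (by omega)]
    rw [e]
    exact h1
  · rw [neg_ph, if_pos (by omega)]
    exact hp
  · rw [neg_ph, if_pos (by omega)]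
    exact hh
  · rw [neg_ph, if_neg (by omega)]
    exact hq
  · rw [neg_ph, if_neg (by omega)]
    exact hg

end

end Pool.Agent.NU5
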