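import Pool.Agent.NU5.Sgn
import Pool.Agent.NUP1L.LegGas

/-!
# Exchange of the two punctures; `GasLe` with the other sign of the ends
-/

set_option autoImplicit false

open NUP1.Leg NUP1 in
/-- the couplings of the quanta are symmetric -/
theorem Pool.Agent.NU5.crq_swap {m M : ℕ} (x : Fin m → ℂ) (y : Fin M → ℂ) (a : Fin m → SignType)
    (b : Fin M → SignType) : crq y x b a = crq x y a b := by
  unfold crq
  rw [Finset.prod_comm]
  refine Finset.prod_congr rfl fun i _ => Finset.prod_congr rfl fun j _ => ?_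
  rw [list_prod_comm]
  congr 1
  refine List.map_congr_left fun u _ => ?_
  congr 1
  refine List.map_congr_left fun v _ => ?_
  rw [← Bd.qg_neg, neg_sub]

open NUP1.Leg NUP1 in
/-- the sum over the marks is symmetric -/
theorem Pool.Agent.NU5.MS_swap {m M : ℕ} (p q : ℂ) (x : Fin m → ℂ) (y : Fin M → ℂ) (a : Fin m → SignType)
    (b : Fin M → SignType) : MS q p y x b a = MS p q x y a b := by
  unfold MS
  rw [Finset.sum_comm]
  refine Finset.sum_congr rfl fun μ _ => Finset.sum_congr rfl fun ν _ => ?_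
  rw [← Dk_neg, neg_sub]
  ring

namespace Pool.Agent.NU5

open Filter Topology
open NUTP (th ea)

/-- **Exchange of the two punctures.** -/
theorem RE_swap {m M : ℕ} {p h q g : ℂ} {x : Fin m → ℂ} {y : Fin M → ℂ} (H : NUP1.Leg.Ht p h q g x y) :
    (NUTP.Gas.gasF th 1 true (ea (-q)) (ea (-g))).RE (List.ofFn fun i => ea (-x i)) (List.ofFn fun i => ea (-y i))
      (ea (-p)) (ea (-h)) =
    (NUTP.Gas.gasF th 1 true (ea (-p)) (ea (-h))).RE (List.ofFn fun i => ea (-y i)) (List.ofFn fun i => ea (-x i))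
      (ea (-q)) (ea (-g)) := by
  have gz : ∀ α β, NUP1.Leg.Gz (NUP1.Leg.oz h x α - NUP1.Leg.oz g y β) := fun α β => by
    rcases α with _ | i <;> rcases β with _ | j
    · exact NUP1.Leg.Gz_sub H.hg
    · exact NUP1.Leg.Gz_sub (H.hy j)
    · exact NUP1.Leg.Gz_sub fun h => H.gx i h.symm
    · exact NUP1.Leg.Gz_sub (H.xy i j)
  rw [NUP1.Leg.RE_state (fun i j hij => NUP1.Leg.Gz_sub (H.xx i j hij))
    (fun i j hij => NUP1.Leg.Gz_sub (H.yy i j hij)) gz (fun i => NUP1.Leg.Gz_sub (H.hx i))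
    (fun i => NUP1.Leg.Gz_sub (H.qx i)) (fun j => NUP1.Leg.Gz_sub (H.gy j)) (fun j => NUP1.Leg.Gz_sub (H.py j)),
    NUP1.Leg.RE_state (fun i j hij => NUP1.Leg.Gz_sub (H.yy i j hij))
    (fun i j hij => NUP1.Leg.Gz_sub (H.xx i j hij)) (fun α β => by
      have := (gz β α).neg
      rwa [neg_sub] at this) (fun j => NUP1.Leg.Gz_sub (H.gy j)) (fun j => NUP1.Leg.Gz_sub (H.py j))
    (fun i => NUP1.Leg.Gz_sub (H.hx i)) (fun i => NUP1.Leg.Gz_sub (H.qx i))]
  rw [mul_comm (NUP1.Leg.Bp g p y), Finset.sum_comm]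
  congr 1
  refine Finset.sum_congr rfl fun a _ => Finset.sum_congr rfl fun b _ => ?_
  rw [crq_swap, MS_swap]
  by_cases hc : ∑ i, NUP1.nq (b i) + M = ∑ j, NUP1.nq (a j) + m
  · rw [if_pos hc, if_pos hc.symm]
    ring
  · rw [if_neg hc, if_neg fun e => hc e.symm]

variable {M : ℕ} {β : Type*} {l : Filter β} [l.NeBot] {x y : β → Fin (2 * M) → ℂ} {p h q g : β → ℂ}

omit [l.NeBot] in
theorem ht_of_ims {k : ℕ} {x y : Fin (k - 1) → ℂ} {p h q g : ℂ} (hi : (ims x y p h q g).Nodup) :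
    NUP1.Leg.Ht p h q g x y := by
  unfold ims at hi
  simp only [List.nodup_cons, List.mem_cons, not_or, List.mem_append, List.mem_ofFn, List.nodup_append,
    List.nodup_ofFn, not_exists] at hi
  obtain ⟨⟨-, -, -, -, p2⟩, ⟨-, h1, h2, h3⟩, ⟨-, q1, -⟩, ⟨g1, g2⟩, nx, ny, xy⟩ := hi
  refine ⟨fun i j hij e => hij (nx e), fun i j hij e => hij (ny e), ?_, fun i e => h2 i e.symm, fun j e => h3 j e.symm,
    fun i e => g1 i e.symm, fun j e => g2 j e.symm, h1, fun i e => q1 i e.symm, fun j e => p2 j e.symm⟩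
  intro i j e
  exact xy _ ⟨i, rfl⟩ _ ⟨j, rfl⟩ e

/-- **`GasLe` for rows `± π / 16` in any order**, the ends `p`, `h` at `-π / 16`, the ends `q`, `g` at `π / 16`. -/
theorem gasLe_sgn2 {c : ℝ} {r : β → ℝ} {sx sy : Fin (2 * M) → Bool}
    (cx : (Finset.univ.filter fun i => sx i = true).card = M) (cy : (Finset.univ.filter fun i => sy i = true).card = M)
    (hx : ∀ i, Tendsto (fun t => x t i) l (𝓝 (if sx i then ((Real.pi / 16 : ℝ) : ℂ) else -((Real.pi / 16 : ℝ) : ℂ))))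
    (hy : ∀ i, Tendsto (fun t => y t i) l (𝓝 (if sy i then ((Real.pi / 16 : ℝ) : ℂ) else -((Real.pi / 16 : ℝ) : ℂ))))
    (hp : Tendsto p l (𝓝 (-((Real.pi / 16 : ℝ) : ℂ)))) (hh : Tendsto h l (𝓝 (-((Real.pi / 16 : ℝ) : ℂ))))
    (hq : Tendsto q l (𝓝 ((Real.pi / 16 : ℝ) : ℂ))) (hg : Tendsto g l (𝓝 ((Real.pi / 16 : ℝ) : ℂ)))
    (hi : ∀ᶠ t in l, (ims (k := 2 * M + 1) (x t) (y t) (p t) (h t) (q t) (g t)).Nodup)
    (hb : ∀ᶠ t in l, ‖(NUTP.Gas.gasF th 1 true (NUTP.ea (-q t)) (NUTP.ea (-g t))).RE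
      (List.ofFn fun i => NUTP.ea (-x t i)) (List.ofFn fun i => NUTP.ea (-y t i)) (NUTP.ea (-p t))
      (NUTP.ea (-h t))‖ ≤ r t) (hr : Tendsto r l (𝓝 c)) : GasLe (2 * M + 1) c := by
  refine gasLe_sgn (x := y) (y := x) (p := q) (h := g) (q := p) (g := h) cy cx hy hx hq hg hp hh ?_ ?_ hr
  · refine hi.mono fun t ht => (List.Perm.nodup_iff ?_).1 ht
    unfold ims
    have e1 : ∀ (A B : List ℝ) (a b c d : ℝ), (a :: b :: c :: d :: (A ++ B)).Perm (c :: d :: a :: b :: (B ++ A)) := by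
      intro A B a b c d
      have h1 : ([a, b] ++ [c, d] ++ (A ++ B)).Perm ([c, d] ++ [a, b] ++ (B ++ A)) :=
        List.perm_append_comm.append List.perm_append_comm
      exact h1
    exact e1 _ _ _ _ _ _
  · filter_upwards [hi, hb] with t ht hbt
    have e := RE_swap (m := 2 * M) (M := 2 * M) (x := x t) (y := y t) (ht_of_ims (k := 2 * M + 1) ht)
    rw [← e]
    exact hbt

end Pool.Agent.NU5
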