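import Pool.Agent.NU5.Lat
import Pool.Agent.NU5.GU
import Pool.Agent.NUTP.Gas.Final

/-!
# The exact two-point function of the vertical cylinder, without hypotheses
-/

set_option autoImplicit false

namespace Pool.Agent.NU5

open _root_.Pool.Agent.NUF _root_.Pool.Agent.NUT2 _root_.Pool.Agent.NUBD Filter Topology
open NUTP (th)

/-- **The gas family has the properties.** -/
theorem gasData : GasData := fun q g => NUTP.Gas.gas_data NUTP.th8 one_ne_zero q g

variable {k : ℕ} {β : Type*} {l : Filter β} {X Y : β → Fin (k - 1) → ℂ} {ra rb rq rg : β → ℂ}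

/-- **The gas of two cut rows tends to `Bk ^ 2 * Wk`.** -/
theorem RRk (h2 : 2 ≤ k) (hk : 1 ≤ k)
    (hX : ∀ i, Tendsto (fun t => X t i) l (𝓝 (ph (k + 1 + i.val))))
    (hY : ∀ i, Tendsto (fun t => Y t i) l (𝓝 (ph (1 + i.val))))
    (ha : Tendsto ra l (𝓝 (ph 0))) (hb : Tendsto rb l (𝓝 (ph 0)))
    (hq : Tendsto rq l (𝓝 (ph k))) (hg : Tendsto rg l (𝓝 (ph k)))
    (hgen : ∀ᶠ t in l, NUTP.G th (NUTP.ea (ra t) :: NUTP.ea (rb t) :: NUTP.ea (rq t) ::
      NUTP.ea (rg t) :: ((List.ofFn fun i => NUTP.ea (X t i)) ++ List.ofFn fun i => NUTP.ea (Y t i)))) :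
    Tendsto (fun t => gasR (List.ofFn fun i => NUTP.ea (X t i)) (List.ofFn fun i => NUTP.ea (Y t i))
      (NUTP.ea (ra t)) (NUTP.ea (rb t)) (NUTP.ea (rq t)) (NUTP.ea (rg t))) l
      (𝓝 (Bk k ^ 2 * Wk k hk)) :=
  RRk' latData gasData h2 hk hX hY ha hb hq hg hgen

/-- A bound of the gas at generic rows near the physical rows bounds the two-point function. -/
theorem norm_le_of_gasLe' (h2 : 2 ≤ k) (hk : 1 ≤ k) {c : ℝ} (h : GasLe k c) : ‖Bk k ^ 2 * Wk k hk‖ ≤ c :=
  norm_le_of_gasLe latData gasData h2 hk h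

/-- **The growth of the half plane walks from above.** -/
theorem hUp (hleg : LegUp) : HexObs.BAR.HUp (61 / 48) := hUp_of_leg latData gasData hleg

/-- **The decay of the two-point function of the cylinder.** -/
theorem wUp (hleg : LegUp) : HexObs.BAR.WUp Wn := wUp_Wn latData gasData hleg

end Pool.Agent.NU5
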